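import Pool.Agent.MDS.Up.Stmts2

set_option autoImplicit false

/-! # UP4: the algebra of the renormalisation matrix (PAPER.md, section 3) -/

namespace Pool.Agent.MDS.Up

theorem sD_sq : sD ^ 2 = 654739973030 := by
  unfold sD
  exact Real.sq_sqrt (by norm_num)

theorem sD_lower : (8091600375 / 10000 : ℝ) < sD := by
  unfold sD
  apply Real.lt_sqrt_of_sq_lt
  norm_num

theorem sD_upper : sD < 19419841 / 24 := by
  unfold sD
  rw [Real.sqrt_lt' (by norm_num)]
  norm_num

theorem lam_lower : (388396819 / 10 : ℝ) < lam := by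
  have h := sD_lower
  unfold lam
  linarith

theorem lam_upper : lam < 38839682 := by
  have h := sD_upper
  unfold lam
  linarith

theorem lam_pos : 0 < lam := lt_trans (by norm_num) lam_lower

theorem x0_stepA (w : ℤ × ℤ × ℤ) : x0 (stepA w) = x0 w := by
  obtain ⟨b, a, n⟩ := w
  simp only [x0, stepA]
  push_cast
  ring

theorem θs_stepA (w : ℤ × ℤ × ℤ) : θs (stepA w) * lam = θs w := by
  obtain ⟨b, a, n⟩ := w
  simp only [θs, stepA, βs, γs, lam]
  push_cast
  linear_combination (24 * ((-537649 / 8668784347080) * (-5753140815 * (b : ℝ) + 1423030594 * a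
    + 11656084544 * n) + (2360867 / 34675137388320) * (-5414720768 * (b : ℝ) + 1339322913 * a
    + 10970432512 * n))) * sD_sq

/-- the conjugate form -/
noncomputable def θc (w : ℤ × ℤ × ℤ) : ℝ :=
  w.1 * (1461589 / 3296404 + 537649 / 8668784347080 * sD) +
    w.2.1 * (-1766685 / 26371232 - 2360867 / 34675137388320 * sD) - w.2.2

theorem θc_stepA (w : ℤ × ℤ × ℤ) : θc (stepA w) = lam * θc w := by
  obtain ⟨b, a, n⟩ := w
  simp only [θc, stepA, lam]
  push_cast
  linear_combination (24 * ((-537649 / 8668784347080) * (b : ℝ)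
    + (2360867 / 34675137388320) * (a : ℝ))) * sD_sq

/-- `b` in terms of the three eigenforms -/
theorem b_eq (w : ℤ × ℤ × ℤ) : (w.1 : ℝ) =
    -(28019434 / 75546919965) * sD * (θc w - θs w) - 40134739 / 1213740 * x0 w := by
  obtain ⟨b, a, n⟩ := w
  simp only [θc, θs, x0, βs, γs]
  linear_combination (-(2 * (28019434 / 75546919965) * ((-537649 / 8668784347080) * (b : ℝ)
    + (2360867 / 34675137388320) * (a : ℝ)))) * sD_sq

theorem x0_iter (n : ℕ) (w : ℤ × ℤ × ℤ) : x0 (stepA^[n] w) = x0 w := by
  induction n generalizing w with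
  | zero => rfl
  | succ n ih => rw [Function.iterate_succ_apply, ih, x0_stepA]

theorem θs_iter (n : ℕ) (w : ℤ × ℤ × ℤ) : θs (stepA^[n] w) * lam ^ n = θs w := by
  induction n generalizing w with
  | zero => simp
  | succ n ih =>
    rw [Function.iterate_succ_apply, pow_succ, ← mul_assoc, ih, θs_stepA]

theorem θc_iter (n : ℕ) (w : ℤ × ℤ × ℤ) : θc (stepA^[n] w) = lam ^ n * θc w := by
  induction n generalizing w with
  | zero => simp
  | succ n ih =>
    rw [Function.iterate_succ_apply, pow_succ, ih, θc_stepA]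
    ring

theorem b_iter (n : ℕ) (w : ℤ × ℤ × ℤ) :
    |(((stepA^[n] w).1 : ℤ) : ℝ) / lam ^ n - w.1| ≤ 331 / 10 * |x0 w| + 301 * |θs w| := by
  have hl : (1 : ℝ) ≤ lam := le_trans (by norm_num) lam_lower.le
  have hP : (1 : ℝ) ≤ lam ^ n := one_le_pow₀ hl
  have hP0 : (0 : ℝ) < lam ^ n := lt_of_lt_of_le one_pos hP
  set P : ℝ := lam ^ n with hPdef
  have h1 := b_eq (stepA^[n] w)
  rw [x0_iter, θc_iter] at h1
  have h2 : θs (stepA^[n] w) = θs w / P := by
    rw [eq_div_iff hP0.ne']; exact θs_iter n w
  rw [h2, ← hPdef] at h1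
  have h3 := b_eq w
  set r : ℝ := 1 / P with hr
  have hr0 : 0 < r := by positivity
  have hr1 : r ≤ 1 := by rw [hr, div_le_one hP0]; exact hP
  have hPr : P * r = 1 := by rw [hr]; field_simp
  have h4 : (((stepA^[n] w).1 : ℤ) : ℝ) / P - w.1 =
      40134739 / 1213740 * x0 w * (1 - r)
        + (-(28019434 / 75546919965) * sD * θs w) * (1 - r * r) := by
    rw [h1, h3]
    have e1 : θs w / P = θs w * r := by rw [hr]; ring
    rw [e1, div_eq_mul_one_div, ← hr]
    linear_combination (-(28019434 / 75546919965) * sD * θc w) * hPr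
  have hs0 : 0 < sD := lt_trans (by norm_num) sD_lower
  have hk : 28019434 / 75546919965 * sD ≤ 301 := by
    have := sD_upper
    nlinarith
  rw [h4]
  refine (abs_add_le _ _).trans ?_
  have a1 : |40134739 / 1213740 * x0 w * (1 - r)| ≤ 331 / 10 * |x0 w| := by
    rw [abs_mul, abs_mul, abs_of_nonneg (by linarith : (0:ℝ) ≤ 1 - r),
      abs_of_pos (by norm_num : (0:ℝ) < 40134739 / 1213740)]
    have hx := abs_nonneg (x0 w)
    have : 40134739 / 1213740 * |x0 w| * (1 - r) ≤ 40134739 / 1213740 * |x0 w| * 1 :=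
      mul_le_mul_of_nonneg_left (by linarith) (by positivity)
    nlinarith
  have a2 : |(-(28019434 / 75546919965) * sD * θs w) * (1 - r * r)| ≤ 301 * |θs w| := by
    have hrr : r * r ≤ 1 := by nlinarith
    rw [abs_mul, abs_mul, abs_of_nonneg (by linarith : (0:ℝ) ≤ 1 - r * r)]
    have e : |(-(28019434 / 75546919965) * sD)| = 28019434 / 75546919965 * sD := by
      rw [neg_mul, abs_neg, abs_of_pos (by positivity)]
    rw [e]
    have ht := abs_nonneg (θs w)
    calc 28019434 / 75546919965 * sD * |θs w| * (1 - r * r)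
        ≤ 28019434 / 75546919965 * sD * |θs w| * 1 :=
          mul_le_mul_of_nonneg_left (by nlinarith) (by positivity)
      _ ≤ 301 * |θs w| := by
          rw [mul_one]; exact mul_le_mul_of_nonneg_right hk ht
  exact add_le_add a1 a2

theorem F_eq : F * (1 / 17 * vs + 16 / 17 * βs) = βs * vs := by
  have hF : F = 6209318411912960898313 / 16362765653983676769060 +
    8878546621181637349 / 2868687348925110243798061080 * sD := rfl
  rw [hF]
  simp only [vs, βs, γs]
  linear_combination
    ((8878546621181637349 / 2868687348925110243798061080) *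
      (1 / 17 * (-537649 / 8668784347080 + 2360867 / 34675137388320)
        + 16 / 17 * (-537649 / 8668784347080))
      - (-537649 / 8668784347080) * (-537649 / 8668784347080 + 2360867 / 34675137388320)) * sD_sq

/-- UP4 (algebra) -/
theorem alg : S_ALG :=
  ⟨fun n w => ⟨x0_iter n w, θs_iter n w, b_iter n w⟩, lam_lower, lam_upper, F_eq⟩

end Pool.Agent.MDS.Up
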