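import Pool.Agent.MDS.Up.Red

set_option autoImplicit false

/-!
# MP_85fa44_nt, upper bound: the assembly (module UP7, helper88)
-/

namespace Pool.Agent.MDS.Up

open Pool.Agent.Lib_helper94.MDS Filter

lemma sqrt_bounds : (8091600416666655938806 / 10 ^ 16 : ℝ) ≤ √654739973030 ∧
    √654739973030 ≤ 8091600416666655938807 / 10 ^ 16 := by
  constructor
  · apply Real.le_sqrt_of_sq_le
    norm_num
  · apply Real.sqrt_le_iff.mpr
    norm_num

lemma THR_lt_F : (THR : ℝ) / D < F := by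
  have h := sqrt_bounds.1
  have h2 : (6209318411912960898313 / 16362765653983676769060 +
    8878546621181637349 / 2868687348925110243798061080 * (8091600416666655938806 / 10 ^ 16) : ℝ) ≤
      F := by
    unfold F
    gcongr
  refine lt_of_lt_of_le ?_ h2
  unfold THR D
  norm_num

lemma F_pos : 0 < F := by
  unfold F
  positivity

/-- UP7 (assembly) -/
theorem stmtASM : S_ASM := by
  intro hred hglob hloc ξ ζ ε hε
  by_cases hξ : Irrational ξ
  · obtain ⟨B, hB⟩ := hloc (ε / 2) (by linarith)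
    refine ⟨max (B + 1) 1048577, fun M hM => ?_⟩
    have hM1 : B + 1 ≤ M := (le_max_left _ _).trans hM
    have hM2 : 1048577 ≤ M := (le_max_right _ _).trans hM
    by_contra hcon
    push Not at hcon
    obtain ⟨z, t, β, v, ρ, hadm⟩ := hred ξ ζ hξ M (by omega) (F + ε)
      (fun q hq1 hq2 => (hcon q hq1 hq2).le)
    have mono : ∀ B' : ℕ, B' ≤ M - 1 → Adm B' z t β v ρ (F + ε) := by
      intro B' hB'
      obtain ⟨h1, h2, h3, h4, h5, h6, h7, h8, h9, h10⟩ := hadm
      exact ⟨h1, h2, h3, h4, h5, h6, h7, h8, h9, fun b a n hb1 hb2 => h10 b a n hb1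
        (hb2.trans hB')⟩
    have h1 := hglob z t β v ρ (F + ε) (mono _ (by omega))
      (by have := THR_lt_F; linarith)
    have h2 := hB z t β v ρ (F + ε) (mono _ (by omega)) h1
    linarith
  · unfold Irrational at hξ
    push Not at hξ
    obtain ⟨r, hr⟩ := hξ
    refine ⟨r.den + 1, fun M hM => ⟨r.den, r.den_pos, by omega, ?_⟩⟩
    have h0 : nd ((r.den : ℝ) * ξ) = 0 := by
      have e : (r.den : ℝ) * ξ = ((r.num : ℤ) : ℝ) := by
        rw [← hr]
        have := Rat.den_mul_eq_num r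
        exact_mod_cast this
      rw [e, nd_eq]; exact distInt_int _
    rw [h0, zero_mul, mul_zero]
    have := F_pos
    linarith

/-- From `S_UB` to the limsup over the reals. -/
theorem L_le_F (h : S_UB) (ξ ζ : ℝ) : L ξ ζ ≤ F := by
  refine le_of_forall_pos_le_add fun ε hε => ?_
  obtain ⟨M₀, hM₀⟩ := h ξ ζ ε hε
  apply L_le_of_eventually
  filter_upwards [eventually_ge_atTop (1 : ℝ), eventually_ge_atTop (M₀ : ℝ)] with Q hQ1 hQ2
  obtain ⟨q, hq1, hq2, hq3⟩ := hM₀ (⌊Q⌋₊ + 1) (by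
    have := Nat.le_floor hQ2
    omega)
  have hfl : ((⌊Q⌋₊ : ℕ) : ℝ) ≤ Q := Nat.floor_le (by linarith)
  have hlt : Q < (⌊Q⌋₊ : ℝ) + 1 := Nat.lt_floor_add_one Q
  have hq : ((q : ℤ) : ℝ) ≤ Q := by
    have h1 : q ≤ ⌊Q⌋₊ := by omega
    have : (q : ℝ) ≤ ((⌊Q⌋₊ : ℕ) : ℝ) := by exact_mod_cast h1
    push_cast
    linarith
  have hm := mMin_le (ξ := ξ) (ζ := ζ) (q := (q : ℤ)) (by exact_mod_cast hq1) hq
  push_cast at hm hq3
  rw [nd_eq, nd_eq] at hq3
  have hp : 0 ≤ distInt (q * ξ) * distInt (q * ζ) :=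
    mul_nonneg (distInt_nonneg _) (distInt_nonneg _)
  calc Q * mMin ξ ζ Q ≤ Q * (distInt (q * ξ) * distInt (q * ζ)) :=
        mul_le_mul_of_nonneg_left hm (by linarith)
    _ ≤ ((⌊Q⌋₊ : ℝ) + 1) * (distInt (q * ξ) * distInt (q * ζ)) :=
        mul_le_mul_of_nonneg_right hlt.le hp
    _ ≤ F + ε := hq3

end Pool.Agent.MDS.Up
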