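import Pool.Agent.MDS.Up.Stmts2

set_option autoImplicit false

/-! # UP5: the stages of the descent (generated) -/

namespace Pool.Agent.MDS.Up

theorem sD_bounds : (809160041666665593880677670497895574736945347699292 / 1000000000000000000000000000000000000000000000 : ℝ) < sD ∧ sD < (809160041666665593880677670497895574736945347699293 / 1000000000000000000000000000000000000000000000 : ℝ) := by
  unfold sD
  constructor
  · apply Real.lt_sqrt_of_sq_lt; norm_num
  · rw [Real.sqrt_lt' (by norm_num)]; norm_num

/-- keep the side `≥` -/
theorem cutP {w : ℤ × ℤ × ℤ} {X Y Ym c tl th k b d : ℝ} (h1 : tl ≤ θs w) (h2 : θs w ≤ th)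
    (hx : x0 w = k) (hb : (w.1 : ℝ) = b) (hb32 : 32 < b) (hc : |c - w.1| ≤ 32)
    (hk : 3819 / 10000 ≤ |θs w + x0 w * X + c * Y| * c) (hY : |Y| ≤ Ym)
    (hU : -(3819 / 10000) / (b + 32) < tl + (k * X + b * Y) - 32 * Ym)
    (hd : d ≤ 3819 / 10000 / (b + 32) - th - 32 * Ym) : d ≤ k * X + b * Y := by
  rw [hx] at hk
  rw [hb] at hc
  obtain ⟨c1, c2⟩ := abs_le.1 hc
  have hcY : |(c - b) * Y| ≤ 32 * Ym := by
    rw [abs_mul]
    exact mul_le_mul hc hY (abs_nonneg _) (by norm_num)
  obtain ⟨e1, e2⟩ := abs_le.1 hcY
  have hbp : 0 < b + 32 := by linarith
  have hcp : 0 < c := by linarith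
  have h3 : -(3819 / 10000) / (b + 32) < θs w + k * X + c * Y := by nlinarith
  have h4 : 3819 / 10000 / (b + 32) ≤ |θs w + k * X + c * Y| := by
    rw [div_le_iff₀ hbp]
    exact hk.trans (mul_le_mul_of_nonneg_left (by linarith) (abs_nonneg _))
  rcases abs_cases (θs w + k * X + c * Y) with ⟨h5, h6⟩ | ⟨h5, h6⟩
  · rw [h5] at h4; nlinarith
  · rw [h5] at h4
    have : -(3819 / 10000) / (b + 32) = -(3819 / 10000 / (b + 32)) := by ring
    rw [this] at h3
    linarith

/-- keep the side `≤` -/
theorem cutN {w : ℤ × ℤ × ℤ} {X Y Ym c tl th k b d : ℝ} (h1 : tl ≤ θs w) (h2 : θs w ≤ th)
    (hx : x0 w = k) (hb : (w.1 : ℝ) = b) (hb32 : 32 < b) (hc : |c - w.1| ≤ 32)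
    (hk : 3819 / 10000 ≤ |θs w + x0 w * X + c * Y| * c) (hY : |Y| ≤ Ym)
    (hU : th + (k * X + b * Y) + 32 * Ym < 3819 / 10000 / (b + 32))
    (hd : d ≤ 3819 / 10000 / (b + 32) + tl - 32 * Ym) : d ≤ -(k * X + b * Y) := by
  rw [hx] at hk
  rw [hb] at hc
  obtain ⟨c1, c2⟩ := abs_le.1 hc
  have hcY : |(c - b) * Y| ≤ 32 * Ym := by
    rw [abs_mul]
    exact mul_le_mul hc hY (abs_nonneg _) (by norm_num)
  obtain ⟨e1, e2⟩ := abs_le.1 hcY
  have hbp : 0 < b + 32 := by linarith
  have hcp : 0 < c := by linarith
  have h3 : θs w + k * X + c * Y < 3819 / 10000 / (b + 32) := by nlinarith
  have h4 : 3819 / 10000 / (b + 32) ≤ |θs w + k * X + c * Y| := by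
    rw [div_le_iff₀ hbp]
    exact hk.trans (mul_le_mul_of_nonneg_left (by linarith) (abs_nonneg _))
  rcases abs_cases (θs w + k * X + c * Y) with ⟨h5, h6⟩ | ⟨h5, h6⟩
  · rw [h5] at h4; linarith
  · rw [h5] at h4; nlinarith

theorem stage0 : Stage V0 box0 box1 := by
  intro X Y c hc hk hX hP
  unfold box0 Bx at hP
  obtain ⟨p1, p2, p3, p4⟩ := hP
  obtain ⟨s1, s2⟩ := sD_bounds
  have hY : |Y| ≤ (1 / 687194767360) := abs_le.2 ⟨by linarith only [p3], by linarith only [p4]⟩
  have ec0 : θs (351267, 330604, 134185) = (-3858256889 / 6592808) + (3134833567 / 4334392173540) * sD := by
    simp only [θs, βs, γs]; push_cast; ring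
  have c0 := cutP (d := (-26952831202806393 / 500000000000000000000000)) (tl := (1140967229234846591 / 1000000000000000000000000)) (th := (570483614617423297 / 500000000000000000000000)) (k := (-4 / 17)) (b := 351267)
    (by rw [ec0]; linarith only [s1, s2]) (by rw [ec0]; linarith only [s1, s2])
    (by simp only [x0]; push_cast; norm_num) (by push_cast; norm_num) (by norm_num)
    (hc (351267, 330604, 134185) (by simp [V0])) (hk (351267, 330604, 134185) (by simp [V0])) hY
    (by linarith only [p3, p2]) (by norm_num)
  have yo1 : Y ≤ (1 / 1374389534720) := by linarith only [p2, p4]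
  have o1 : (-303 / 1374389534720) ≤ X := by
    have h := max_le yo1 (show (0 : ℝ) ≤ (1 / 1374389534720) by norm_num)
    linarith only [h, hX]
  have ec2 : θs (568357, 534924, 217114) = (-6242789301 / 6592808) + (2536133021 / 2167196086770) * sD := by
    simp only [θs, βs, γs]; push_cast; ring
  have c2 := cutN (d := (-12775009170712611 / 250000000000000000000000)) (tl := (-722952469303215799 / 1000000000000000000000000)) (th := (-180738117325803949 / 250000000000000000000000)) (k := (-4 / 17)) (b := 568357)
    (by rw [ec2]; linarith only [s1, s2]) (by rw [ec2]; linarith only [s1, s2])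
    (by simp only [x0]; push_cast; norm_num) (by push_cast; norm_num) (by norm_num)
    (hc (568357, 534924, 217114) (by simp [V0])) (hk (568357, 534924, 217114) (by simp [V0])) hY
    (by linarith only [p4, o1]) (by norm_num)
  have ec3 : θs (785413, 739213, 300030) = (-34509245809 / 26371232) + (56077521523 / 34675137388320) * sD := by
    simp only [θs, βs, γs]; push_cast; ring
  have c3 := cutN (d := (-95093734310087581 / 500000000000000000000000)) (tl := (-67636208920725517 / 100000000000000000000000)) (th := (-676362089207255167 / 1000000000000000000000000)) (k := (13 / 17)) (b := 785413)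
    (by rw [ec3]; linarith only [s1, s2]) (by rw [ec3]; linarith only [s1, s2])
    (by simp only [x0]; push_cast; norm_num) (by push_cast; norm_num) (by norm_num)
    (hc (785413, 739213, 300030) (by simp [V0])) (hk (785413, 739213, 300030) (by simp [V0])) hY
    (by linarith only [c0, c2]) (by norm_num)
  have ec4 : θs (919624, 865528, 351299) = (-5050523095 / 3296404) + (8207099609 / 4334392173540) * sD := by
    simp only [θs, βs, γs]; push_cast; ring
  have c4 := cutP (d := (-279735779396631 / 100000000000000000000000)) (tl := (418014759931630793 / 1000000000000000000000000)) (th := (104503689982907699 / 250000000000000000000000)) (k := (-8 / 17)) (b := 919624)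
    (by rw [ec4]; linarith only [s1, s2]) (by rw [ec4]; linarith only [s1, s2])
    (by simp only [x0]; push_cast; norm_num) (by push_cast; norm_num) (by norm_num)
    (hc (919624, 865528, 351299) (by simp [V0])) (hk (919624, 865528, 351299) (by simp [V0])) hY
    (by linarith only [o1, c0]) (by norm_num)
  have ec5 : θs (1705037, 1604741, 651329) = (-74913430569 / 26371232) + (24346863679 / 6935027477664) * sD := by
    simp only [θs, βs, γs]; push_cast; ring
  have c5 := cutN (d := (-344146898707374467 / 10000000000000000000000000)) (tl := (-1291736646378121869 / 5000000000000000000000000)) (th := (-516694658551248747 / 2000000000000000000000000)) (k := (5 / 17)) (b := 1705037)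
    (by rw [ec5]; linarith only [s1, s2]) (by rw [ec5]; linarith only [s1, s2])
    (by simp only [x0]; push_cast; norm_num) (by push_cast; norm_num) (by norm_num)
    (hc (1705037, 1604741, 651329) (by simp [V0])) (hk (1705037, 1604741, 651329) (by simp [V0])) hY
    (by linarith only [c3, c2]) (by norm_num)
  have ec6 : θs (4329698, 4075010, 1653957) = (-95115522949 / 13185616) + (154562716831 / 17337568694160) * sD := by
    simp only [θs, βs, γs]; push_cast; ring
  have c6 := cutN (d := (-52611752020181319 / 5000000000000000000000000)) (tl := (-986798986196179527 / 10000000000000000000000000)) (th := (-246699746549044881 / 2500000000000000000000000)) (k := (2 / 17)) (b := 4329698)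
    (by rw [ec6]; linarith only [s1, s2]) (by rw [ec6]; linarith only [s1, s2])
    (by simp only [x0]; push_cast; norm_num) (by push_cast; norm_num) (by norm_num)
    (hc (4329698, 4075010, 1653957) (by simp [V0])) (hk (4329698, 4075010, 1653957) (by simp [V0])) hY
    (by linarith only [c5, o1]) (by norm_num)
  have ec7 : θs (6954359, 6545279, 2656585) = (-305548661227 / 26371232) + (496516548929 / 34675137388320) * sD := by
    simp only [θs, βs, γs]; push_cast; ring
  have c7 := cutP (d := (-61191530606521513 / 10000000000000000000000000)) (tl := (152468830090971171 / 2500000000000000000000000)) (th := (609875320363884687 / 10000000000000000000000000)) (k := (-1 / 17)) (b := 6954359)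
    (by rw [ec7]; linarith only [s1, s2]) (by rw [ec7]; linarith only [s1, s2])
    (by simp only [x0]; push_cast; norm_num) (by push_cast; norm_num) (by norm_num)
    (hc (6954359, 6545279, 2656585) (by simp [V0])) (hk (6954359, 6545279, 2656585) (by simp [V0])) hY
    (by linarith only [o1, c4]) (by norm_num)
  have ec8 : θs (11284057, 10620289, 4310542) = (-495779707125 / 26371232) + (805641982591 / 34675137388320) * sD := by
    simp only [θs, βs, γs]; push_cast; ring
  have c8 := cutN (d := (-389481822473847163 / 100000000000000000000000000)) (tl := (-1884618329161474203 / 50000000000000000000000000)) (th := (-3769236658322948403 / 100000000000000000000000000)) (k := (1 / 17)) (b := 11284057)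
    (by rw [ec8]; linarith only [s1, s2]) (by rw [ec8]; linarith only [s1, s2])
    (by simp only [x0]; push_cast; norm_num) (by push_cast; norm_num) (by norm_num)
    (hc (11284057, 10620289, 4310542) (by simp [V0])) (hk (11284057, 10620289, 4310542) (by simp [V0])) hY
    (by linarith only [c6, o1]) (by norm_num)
  unfold box1 Bx
  exact ⟨by linarith only [c8, o1],
    by linarith only [c4, c8],
    by linarith only [o1, c7],
    by linarith only [c8, o1]⟩

theorem stage1 : Stage V1 box1 box2 := by
  intro X Y c hc hk hX hP
  unfold box1 Bx at hP
  obtain ⟨p1, p2, p3, p4⟩ := hP
  obtain ⟨s1, s2⟩ := sD_bounds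
  have hY : |Y| ≤ (27 / 28147497671065600) := abs_le.2 ⟨by linarith only [p3], by linarith only [p4]⟩
  have ec0 : θs (18238416, 17165568, 6967127) = (-25041511511 / 824101) + (402318 / 10713313) * sD := by
    simp only [θs, βs, γs]; push_cast; ring
  have c0 := cutP (d := (-235591447288363863 / 100000000000000000000000000)) (tl := (465903309063179689 / 20000000000000000000000000)) (th := (145594784082243653 / 6250000000000000000000000)) (k := 0) (b := 18238416)
    (by rw [ec0]; linarith only [s1, s2]) (by rw [ec0]; linarith only [s1, s2])
    (by simp only [x0]; push_cast; norm_num) (by push_cast; norm_num) (by norm_num)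
    (hc (18238416, 17165568, 6967127) (by simp [V1])) (hk (18238416, 17165568, 6967127) (by simp [V1])) hY
    (by linarith only [p1, p3]) (by norm_num)
  have yo1 : Y ≤ (426325641456060111522674560547 / 1000000000000000000000000000000000000000000000) := by linarith only [p2, p4]
  have o1 : (-129176669361186213791370391845741 / 1000000000000000000000000000000000000000000000) ≤ X := by
    have h := max_le yo1 (show (0 : ℝ) ≤ (426325641456060111522674560547 / 1000000000000000000000000000000000000000000000) by norm_num)
    linarith only [h, hX]
  have ec2 : θs (29522473, 27785857, 11277669) = (-1297108075477 / 26371232) + (2107800514111 / 34675137388320) * sD := by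
    simp only [θs, βs, γs]; push_cast; ring
  have c2 := cutN (d := (-146133766612878697 / 100000000000000000000000000)) (tl := (-35993002825176249 / 2500000000000000000000000)) (th := (-1439720113007049957 / 100000000000000000000000000)) (k := (1 / 17)) (b := 29522473)
    (by rw [ec2]; linarith only [s1, s2]) (by rw [ec2]; linarith only [s1, s2])
    (by simp only [x0]; push_cast; norm_num) (by push_cast; norm_num) (by norm_num)
    (hc (29522473, 27785857, 11277669) (by simp [V1])) (hk (29522473, 27785857, 11277669) (by simp [V1])) hY
    (by linarith only [p2, p4]) (by norm_num)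
  have ec3 : θs (47760889, 44951425, 18244796) = (-2098436443829 / 26371232) + (3409959045631 / 34675137388320) * sD := by
    simp only [θs, βs, γs]; push_cast; ring
  have c3 := cutP (d := (-90191805846097267 / 100000000000000000000000000)) (tl := (889796432308848487 / 100000000000000000000000000)) (th := (88979643230884849 / 10000000000000000000000000)) (k := (1 / 17)) (b := 47760889)
    (by rw [ec3]; linarith only [s1, s2]) (by rw [ec3]; linarith only [s1, s2])
    (by simp only [x0]; push_cast; norm_num) (by push_cast; norm_num) (by norm_num)
    (hc (47760889, 44951425, 18244796) (by simp [V1])) (hk (47760889, 44951425, 18244796) (by simp [V1])) hY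
    (by linarith only [o1, c0]) (by norm_num)
  have ec4 : θs (77283362, 72737282, 29522465) = (-1697772259653 / 13185616) + (2758879779871 / 17337568694160) * sD := by
    simp only [θs, βs, γs]; push_cast; ring
  have c4 := cutN (d := (-27885717015452571 / 50000000000000000000000000)) (tl := (-549923680698201471 / 100000000000000000000000000)) (th := (-137480920174550367 / 25000000000000000000000000)) (k := (2 / 17)) (b := 77283362)
    (by rw [ec4]; linarith only [s1, s2]) (by rw [ec4]; linarith only [s1, s2])
    (by simp only [x0]; push_cast; norm_num) (by push_cast; norm_num) (by norm_num)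
    (hc (77283362, 72737282, 29522465) (by simp [V1])) (hk (77283362, 72737282, 29522465) (by simp [V1])) hY
    (by linarith only [c2, o1]) (by norm_num)
  have ec5 : θs (84020665, 79078272, 32096134) = (-461444386491 / 3296404) + (1499694178871 / 8668784347080) * sD := by
    simp only [θs, βs, γs]; push_cast; ring
  have c5 := cutP (d := (-217631859452290273 / 50000000000000000000000000)) (tl := (44489575667229121 / 5000000000000000000000000)) (th := (889791513344582423 / 100000000000000000000000000)) (k := (-16 / 17)) (b := 84020665)
    (by rw [ec5]; linarith only [s1, s2]) (by rw [ec5]; linarith only [s1, s2])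
    (by simp only [x0]; push_cast; norm_num) (by push_cast; norm_num) (by norm_num)
    (hc (84020665, 79078272, 32096134) (by simp [V1])) (hk (84020665, 79078272, 32096134) (by simp [V1])) hY
    (by linarith only [c3, p2]) (by norm_num)
  have ec6 : θs (161304027, 151815554, 61618599) = (-3543549805617 / 13185616) + (5758268137613 / 17337568694160) * sD := by
    simp only [θs, βs, γs]; push_cast; ring
  have c6 := cutP (d := (-1611141654086511 / 1562500000000000000000000)) (tl := (3398678326463809523 / 1000000000000000000000000000)) (th := (1699339163231904763 / 500000000000000000000000000)) (k := (-14 / 17)) (b := 161304027)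
    (by rw [ec6]; linarith only [s1, s2]) (by rw [ec6]; linarith only [s1, s2])
    (by simp only [x0]; push_cast; norm_num) (by push_cast; norm_num) (by norm_num)
    (hc (161304027, 151815554, 61618599) (by simp [V1])) (hk (161304027, 151815554, 61618599) (by simp [V1])) hY
    (by linarith only [c3, c5]) (by norm_num)
  have ec7 : θs (202327613, 190425989, 77289726) = (-8889525482441 / 26371232) + (2889095633023 / 6935027477664) * sD := by
    simp only [θs, βs, γs]; push_cast; ring
  have c7 := cutN (d := (-213007513930227919 / 1000000000000000000000000000)) (tl := (-2100509290875544501 / 1000000000000000000000000000)) (th := (-1050254645437772249 / 500000000000000000000000000)) (k := (5 / 17)) (b := 202327613)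
    (by rw [ec7]; linarith only [s1, s2]) (by rw [ec7]; linarith only [s1, s2])
    (by simp only [x0]; push_cast; norm_num) (by push_cast; norm_num) (by norm_num)
    (hc (202327613, 190425989, 77289726) (by simp [V1])) (hk (202327613, 190425989, 77289726) (by simp [V1])) hY
    (by linarith only [c4, o1]) (by norm_num)
  have ec8 : θs (363631640, 342241543, 138908325) = (-15976625093675 / 26371232) + (8654004813447 / 11558379129440) * sD := by
    simp only [θs, βs, γs]; push_cast; ring
  have c8 := cutP (d := (-24796118085667547 / 100000000000000000000000000)) (tl := (20283891181066641 / 15625000000000000000000000)) (th := (1298169035588265027 / 1000000000000000000000000000)) (k := (-9 / 17)) (b := 363631640)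
    (by rw [ec8]; linarith only [s1, s2]) (by rw [ec8]; linarith only [s1, s2])
    (by simp only [x0]; push_cast; norm_num) (by push_cast; norm_num) (by norm_num)
    (hc (363631640, 342241543, 138908325) (by simp [V1])) (hk (363631640, 342241543, 138908325) (by simp [V1])) hY
    (by linarith only [o1, c6]) (by norm_num)
  have ec9 : θs (529699477, 498540685, 202346713) = (-23273031928017 / 26371232) + (37818674935603 / 34675137388320) * sD := by
    simp only [θs, βs, γs]; push_cast; ring
  have c9 := cutN (d := (-81346956487010817 / 1000000000000000000000000000)) (tl := (-802291065644618807 / 1000000000000000000000000000)) (th := (-200572766411154701 / 250000000000000000000000000)) (k := (13 / 17)) (b := 529699477)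
    (by rw [ec9]; linarith only [s1, s2]) (by rw [ec9]; linarith only [s1, s2])
    (by simp only [x0]; push_cast; norm_num) (by push_cast; norm_num) (by norm_num)
    (hc (529699477, 498540685, 202346713) (by simp [V1])) (hk (529699477, 498540685, 202346713) (by simp [V1])) hY
    (by linarith only [c7, o1]) (by norm_num)
  have ec10 : θs (929590893, 874909075, 355106376) = (-40842775669791 / 26371232) + (66369507045797 / 34675137388320) * sD := by
    simp only [θs, βs, γs]; push_cast; ring
  have c10 := cutP (d := (-42516803146409367 / 500000000000000000000000000)) (tl := (495828780300985549 / 1000000000000000000000000000)) (th := (30989298768811597 / 62500000000000000000000000)) (k := (-13 / 17)) (b := 929590893)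
    (by rw [ec10]; linarith only [s1, s2]) (by rw [ec10]; linarith only [s1, s2])
    (by simp only [x0]; push_cast; norm_num) (by push_cast; norm_num) (by norm_num)
    (hc (929590893, 874909075, 355106376) (by simp [V1])) (hk (929590893, 874909075, 355106376) (by simp [V1])) hY
    (by linarith only [o1, c8]) (by norm_num)
  unfold box2 Bx
  exact ⟨by linarith only [c9, o1],
    by linarith only [c10, c9],
    by linarith only [o1, c10],
    by linarith only [c9, o1]⟩

theorem stage2 : Stage V2 box2 box3 := by
  intro X Y c hc hk hX hP
  unfold box2 Bx at hP
  obtain ⟨p1, p2, p3, p4⟩ := hP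
  obtain ⟨s1, s2⟩ := sD_bounds
  have hY : |Y| ≤ (1 / 5764607523034234880) := abs_le.2 ⟨by linarith only [p3], by linarith only [p4]⟩
  have ec0 : θs (1459290370, 1373449760, 557453089) = (-4007237974863 / 1648202) + (128760915 / 42853252) * sD := by
    simp only [θs, βs, γs]; push_cast; ring
  have c0 := cutN (d := (-447597541847179917 / 10000000000000000000000000000)) (tl := (-3064622853436332549 / 10000000000000000000000000000)) (th := (-1532311426718166273 / 5000000000000000000000000000)) (k := 0) (b := 1459290370)
    (by rw [ec0]; linarith only [s1, s2]) (by rw [ec0]; linarith only [s1, s2])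
    (by simp only [x0]; push_cast; norm_num) (by push_cast; norm_num) (by norm_num)
    (hc (1459290370, 1373449760, 557453089) (by simp [V2])) (hk (1459290370, 1373449760, 557453089) (by simp [V2])) hY
    (by linarith only [p2, p4]) (by norm_num)
  have yo1 : Y ≤ (7668068518933279827646639 / 250000000000000000000000000000000000000000000) := by linarith only [p2, c0]
  have o1 : (-2323424761236783787776931617 / 250000000000000000000000000000000000000000000) ≤ X := by
    have h := max_le yo1 (show (0 : ℝ) ≤ (7668068518933279827646639 / 250000000000000000000000000000000000000000000) by norm_num)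
    linarith only [h, hX]
  have ec2 : θs (2388881263, 2248358835, 912559465) = (-104958583267599 / 26371232) + (170557689027197 / 34675137388320) * sD := by
    simp only [θs, βs, γs]; push_cast; ring
  have c2 := cutP (d := (-295008760426021113 / 10000000000000000000000000000)) (tl := (1893664949573522957 / 10000000000000000000000000000)) (th := (23670811869669037 / 125000000000000000000000000)) (k := (-13 / 17)) (b := 2388881263)
    (by rw [ec2]; linarith only [s1, s2]) (by rw [ec2]; linarith only [s1, s2])
    (by simp only [x0]; push_cast; norm_num) (by push_cast; norm_num) (by norm_num)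
    (hc (2388881263, 2248358835, 912559465) (by simp [V2])) (hk (2388881263, 2248358835, 912559465) (by simp [V2])) hY
    (by linarith only [p3, p2]) (by norm_num)
  have ec3 : θs (3811911857, 3587681748, 1456161216) = (-41870318054327 / 6592808) + (34019631667343 / 4334392173540) * sD := by
    simp only [θs, βs, γs]; push_cast; ring
  have c3 := cutN (d := (-168606599453338411 / 10000000000000000000000000000)) (tl := (-585233003718101449 / 5000000000000000000000000000)) (th := (-234093201487240579 / 2000000000000000000000000000)) (k := (4 / 17)) (b := 3811911857)
    (by rw [ec3]; linarith only [s1, s2]) (by rw [ec3]; linarith only [s1, s2])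
    (by simp only [x0]; push_cast; norm_num) (by push_cast; norm_num) (by norm_num)
    (hc (3811911857, 3587681748, 1456161216) (by simp [V2])) (hk (3811911857, 3587681748, 1456161216) (by simp [V2])) hY
    (by linarith only [p2, c0]) (by norm_num)
  have ec4 : θs (6200793120, 5836040583, 2368720681) = (-272439855484907 / 26371232) + (147571580788647 / 11558379129440) * sD := by
    simp only [θs, βs, γs]; push_cast; ring
  have c4 := cutP (d := (-26827511248995817 / 2500000000000000000000000000)) (tl := (723198942137320061 / 10000000000000000000000000000)) (th := (5649991735447813 / 78125000000000000000000000)) (k := (-9 / 17)) (b := 6200793120)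
    (by rw [ec4]; linarith only [s1, s2]) (by rw [ec4]; linarith only [s1, s2])
    (by simp only [x0]; push_cast; norm_num) (by push_cast; norm_num) (by norm_num)
    (hc (6200793120, 5836040583, 2368720681) (by simp [V2])) (hk (6200793120, 5836040583, 2368720681) (by simp [V2])) hY
    (by linarith only [o1, c2]) (by norm_num)
  have ec5 : θs (9976445201, 9389595484, 3811030559) = (-109582002263529 / 6592808) + (14839228709059 / 722398695590) * sD := by
    simp only [θs, βs, γs]; push_cast; ring
  have c5 := cutN (d := (-31986771972216239 / 5000000000000000000000000000)) (tl := (-27923448054517259 / 625000000000000000000000000)) (th := (-446775168872276141 / 10000000000000000000000000000)) (k := (12 / 17)) (b := 9976445201)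
    (by rw [ec5]; linarith only [s1, s2]) (by rw [ec5]; linarith only [s1, s2])
    (by simp only [x0]; push_cast; norm_num) (by push_cast; norm_num) (by norm_num)
    (hc (9976445201, 9389595484, 3811030559) (by simp [V2])) (hk (9976445201, 9389595484, 3811030559) (by simp [V2])) hY
    (by linarith only [c4, c3]) (by norm_num)
  have ec6 : θs (16213498097, 15259762914, 6193602578) = (-356180491593561 / 13185616) + (578793269035313 / 17337568694160) * sD := by
    simp only [θs, βs, γs]; push_cast; ring
  have c6 := cutP (d := (-403874514723118861 / 100000000000000000000000000000)) (tl := (1379659384192186139 / 50000000000000000000000000000)) (th := (2759318768384372281 / 100000000000000000000000000000)) (k := (-14 / 17)) (b := 16213498097)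
    (by rw [ec6]; linarith only [s1, s2]) (by rw [ec6]; linarith only [s1, s2])
    (by simp only [x0]; push_cast; norm_num) (by push_cast; norm_num) (by norm_num)
    (hc (16213498097, 15259762914, 6193602578) (by simp [V2])) (hk (16213498097, 15259762914, 6193602578) (by simp [V2])) hY
    (by linarith only [o1, c4]) (by norm_num)
  have ec7 : θs (26153683522, 24615231551, 9990781799) = (-31056645232247 / 712736) + (3364469726911 / 62477725024) * sD := by
    simp only [θs, βs, γs]; push_cast; ring
  have c7 := cutN (d := (-15206221912323619 / 6250000000000000000000000000)) (tl := (-1703513956072322233 / 100000000000000000000000000000)) (th := (-170351395607232223 / 10000000000000000000000000000)) (k := (15 / 17)) (b := 26153683522)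
    (by rw [ec7]; linarith only [s1, s2]) (by rw [ec7]; linarith only [s1, s2])
    (by simp only [x0]; push_cast; norm_num) (by push_cast; norm_num) (by norm_num)
    (hc (26153683522, 24615231551, 9990781799) (by simp [V2])) (hk (26153683522, 24615231551, 9990781799) (by simp [V2])) hY
    (by linarith only [c5, o1]) (by norm_num)
  have ec8 : θs (42403441395, 39909121312, 16198235715) = (-232881246928545 / 3296404) + (756864013544021 / 8668784347080) * sD := by
    simp only [θs, βs, γs]; push_cast; ring
  have c8 := cutP (d := (-150251956641018367 / 100000000000000000000000000000)) (tl := (105088584804598313 / 10000000000000000000000000000)) (th := (1050885848045983133 / 100000000000000000000000000000)) (k := (-16 / 17)) (b := 42403441395)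
    (by rw [ec8]; linarith only [s1, s2]) (by rw [ec8]; linarith only [s1, s2])
    (by simp only [x0]; push_cast; norm_num) (by push_cast; norm_num) (by norm_num)
    (hc (42403441395, 39909121312, 16198235715) (by simp [V2])) (hk (42403441395, 39909121312, 16198235715) (by simp [V2])) hY
    (by linarith only [o1, c6]) (by norm_num)
  have ec9 : θs (68520865141, 64490226016, 26175166176) = (-376319091296675 / 3296404) + (1223036983735459 / 8668784347080) * sD := by
    simp only [θs, βs, γs]; push_cast; ring
  have c9 := cutN (d := (-90361219637339441 / 100000000000000000000000000000)) (tl := (-129541828752054437 / 20000000000000000000000000000)) (th := (-323854571880136091 / 50000000000000000000000000000)) (k := (16 / 17)) (b := 68520865141)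
    (by rw [ec9]; linarith only [s1, s2]) (by rw [ec9]; linarith only [s1, s2])
    (by simp only [x0]; push_cast; norm_num) (by push_cast; norm_num) (by norm_num)
    (hc (68520865141, 64490226016, 26175166176) (by simp [V2])) (hk (68520865141, 64490226016, 26175166176) (by simp [V2])) hY
    (by linarith only [c7, o1]) (by norm_num)
  unfold box3 Bx
  exact ⟨by linarith only [c9, o1],
    by linarith only [c8, c9],
    by linarith only [o1, c8],
    by linarith only [c9, o1]⟩

theorem stage3 : Stage V3 box3 box4 := by
  intro X Y c hc hk hX hP
  unfold box3 Bx at hP
  obtain ⟨p1, p2, p3, p4⟩ := hP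
  obtain ⟨s1, s2⟩ := sD_bounds
  have hY : |Y| ≤ (43 / 1180591620717411303424000) := abs_le.2 ⟨by linarith only [p3], by linarith only [p4]⟩
  have ec0 : θs (110924306536, 104399347328, 42373401891) = (-152300084556305 / 824101) + (2446859703 / 10713313) * sD := by
    simp only [θs, βs, γs]; push_cast; ring
  have c0 := cutP (d := (-117775743879690167 / 200000000000000000000000000000)) (tl := (2015883521428554739 / 500000000000000000000000000000)) (th := (4031767042857109481 / 1000000000000000000000000000000)) (k := 0) (b := 110924306536)
    (by rw [ec0]; linarith only [s1, s2]) (by rw [ec0]; linarith only [s1, s2])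
    (by simp only [x0]; push_cast; norm_num) (by push_cast; norm_num) (by norm_num)
    (hc (110924306536, 104399347328, 42373401891) (by simp [V3])) (hk (110924306536, 104399347328, 42373401891) (by simp [V3])) hY
    (by linarith only [p1, p3]) (by norm_num)
  have yo1 : Y ≤ (2837560373301906135879 / 200000000000000000000000000000000000000000000) := by linarith only [p2, p4]
  have o1 : (-859780793110477559171337 / 200000000000000000000000000000000000000000000) ≤ X := by
    have h := max_le yo1 (show (0 : ℝ) ≤ (2837560373301906135879 / 200000000000000000000000000000000000000000000) by norm_num)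
    linarith only [h, hX]
  have ec2 : θs (179445171677, 168889573344, 68548568067) = (-985519429521895 / 3296404) + (3202937981014939 / 8668784347080) * sD := by
    simp only [θs, βs, γs]; push_cast; ring
  have c2 := cutN (d := (-317097727214164357 / 1000000000000000000000000000000)) (tl := (-2445324394745612357 / 1000000000000000000000000000000)) (th := (-1222662197372806177 / 500000000000000000000000000000)) (k := (16 / 17)) (b := 179445171677)
    (by rw [ec2]; linarith only [s1, s2]) (by rw [ec2]; linarith only [s1, s2])
    (by simp only [x0]; push_cast; norm_num) (by push_cast; norm_num) (by norm_num)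
    (hc (179445171677, 168889573344, 68548568067) (by simp [V3])) (hk (179445171677, 168889573344, 68548568067) (by simp [V3])) hY
    (by linarith only [p2, p4]) (by norm_num)
  have ec3 : θs (290405737989, 273323047519, 110935821296) = (-12759351260625019 / 26371232) + (20733944730847529 / 34675137388320) * sD := by
    simp only [θs, βs, γs]; push_cast; ring
  have c3 := cutP (d := (-111098173113154583 / 500000000000000000000000000000)) (tl := (1537253005450827957 / 1000000000000000000000000000000)) (th := (38431325136270699 / 25000000000000000000000000000)) (k := (-1 / 17)) (b := 290405737989)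
    (by rw [ec3]; linarith only [s1, s2]) (by rw [ec3]; linarith only [s1, s2])
    (by simp only [x0]; push_cast; norm_num) (by push_cast; norm_num) (by norm_num)
    (hc (290405737989, 273323047519, 110935821296) (by simp [V3])) (hk (290405737989, 273323047519, 110935821296) (by simp [V3])) hY
    (by linarith only [c0, c2]) (by norm_num)
  have ec4 : θs (469850909666, 442212620863, 179484389363) = (-20643506696800179 / 26371232) + (2236379776993819 / 2311675825888) * sD := by
    simp only [θs, βs, γs]; push_cast; ring
  have c4 := cutN (d := (-95260364414893139 / 1000000000000000000000000000000)) (tl := (-454035694647392199 / 500000000000000000000000000000)) (th := (-181614277858956879 / 200000000000000000000000000000)) (k := (15 / 17)) (b := 469850909666)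
    (by rw [ec4]; linarith only [s1, s2]) (by rw [ec4]; linarith only [s1, s2])
    (by simp only [x0]; push_cast; norm_num) (by push_cast; norm_num) (by norm_num)
    (hc (469850909666, 442212620863, 179484389363) (by simp [V3])) (hk (469850909666, 442212620863, 179484389363) (by simp [V3])) hY
    (by linarith only [c2, o1]) (by norm_num)
  have ec5 : θs (760292907431, 715569795229, 290434061997) = (-33404451076073297 / 26371232) + (18094076734474889 / 11558379129440) * sD := by
    simp only [θs, βs, γs]; push_cast; ring
  have c5 := cutP (d := (-9710695729956281 / 125000000000000000000000000000)) (tl := (115998394699074879 / 200000000000000000000000000000)) (th := (289995986747687199 / 500000000000000000000000000000)) (k := (-3 / 17)) (b := 760292907431)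
    (by rw [ec5]; linarith only [s1, s2]) (by rw [ec5]; linarith only [s1, s2])
    (by simp only [x0]; push_cast; norm_num) (by push_cast; norm_num) (by norm_num)
    (hc (760292907431, 715569795229, 290434061997) (by simp [V3])) (hk (760292907431, 715569795229, 290434061997) (by simp [V3])) hY
    (by linarith only [c3, c2]) (by norm_num)
  have ec6 : θs (1230143817097, 1157782416092, 469918451360) = (-13511989443218369 / 6592808) + (1829748476215249 / 722398695590) * sD := by
    simp only [θs, βs, γs]; push_cast; ring
  have c6 := cutN (d := (-88139557362090581 / 5000000000000000000000000000000)) (tl := (-3280794157994099999 / 10000000000000000000000000000000)) (th := (-820198539498524999 / 2500000000000000000000000000000)) (k := (12 / 17)) (b := 1230143817097)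
    (by rw [ec6]; linarith only [s1, s2]) (by rw [ec6]; linarith only [s1, s2])
    (by simp only [x0]; push_cast; norm_num) (by push_cast; norm_num) (by norm_num)
    (hc (1230143817097, 1157782416092, 469918451360) (by simp [V3])) (hk (1230143817097, 1157782416092, 469918451360) (by simp [V3])) hY
    (by linarith only [c4, o1]) (by norm_num)
  have ec7 : θs (1990472984304, 1873386338168, 760366364695) = (-10931750245949359 / 3296404) + (17764093234928309 / 4334392173540) * sD := by
    simp only [θs, βs, γs]; push_cast; ring
  have c7 := cutP (d := (-108589707941896989 / 10000000000000000000000000000000)) (tl := (506807287588238079 / 2500000000000000000000000000000)) (th := (2027229150352952319 / 10000000000000000000000000000000)) (k := (-8 / 17)) (b := 1990472984304)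
    (by rw [ec7]; linarith only [s1, s2]) (by rw [ec7]; linarith only [s1, s2])
    (by simp only [x0]; push_cast; norm_num) (by push_cast; norm_num) (by norm_num)
    (hc (1990472984304, 1873386338168, 760366364695) (by simp [V3])) (hk (1990472984304, 1873386338168, 760366364695) (by simp [V3])) hY
    (by linarith only [c5, c4]) (by norm_num)
  have ec8 : θs (3220616801401, 3031168754260, 1230284816055) = (-35375489935117087 / 6592808) + (2210968007093831 / 333414782580) * sD := by
    simp only [θs, βs, γs]; push_cast; ring
  have c8 := cutN (d := (-67767317967571869 / 10000000000000000000000000000000)) (tl := (-626782503820573841 / 5000000000000000000000000000000)) (th := (-1253565007641147679 / 10000000000000000000000000000000)) (k := (4 / 17)) (b := 3220616801401)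
    (by rw [ec8]; linarith only [s1, s2]) (by rw [ec8]; linarith only [s1, s2])
    (by simp only [x0]; push_cast; norm_num) (by push_cast; norm_num) (by norm_num)
    (hc (3220616801401, 3031168754260, 1230284816055) (by simp [V3])) (hk (3220616801401, 3031168754260, 1230284816055) (by simp [V3])) hY
    (by linarith only [c6, o1]) (by norm_num)
  have ec9 : θs (5211089785705, 4904555092428, 1990651180750) = (-57238990427015805 / 6592808) + (11626669331787028 / 1083598043385) * sD := by
    simp only [θs, βs, γs]; push_cast; ring
  have c9 := cutP (d := (-40804012434136191 / 10000000000000000000000000000000)) (tl := (193416035677951159 / 2500000000000000000000000000000)) (th := (773664142711804639 / 10000000000000000000000000000000)) (k := (-4 / 17)) (b := 5211089785705)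
    (by rw [ec9]; linarith only [s1, s2]) (by rw [ec9]; linarith only [s1, s2])
    (by simp only [x0]; push_cast; norm_num) (by push_cast; norm_num) (by norm_num)
    (hc (5211089785705, 4904555092428, 1990651180750) (by simp [V3])) (hk (5211089785705, 4904555092428, 1990651180750) (by simp [V3])) hY
    (by linarith only [o1, c7]) (by norm_num)
  have ec10 : θs (8431706587106, 7935723846688, 3220935996805) = (-23153620090533223 / 1648202) + (743974110627 / 42853252) * sD := by
    simp only [θs, βs, γs]; push_cast; ring
  have c10 := cutN (d := (-26967658316980021 / 10000000000000000000000000000000)) (tl := (-95980172985868609 / 2000000000000000000000000000000)) (th := (-239950432464671521 / 5000000000000000000000000000000)) (k := 0) (b := 8431706587106)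
    (by rw [ec10]; linarith only [s1, s2]) (by rw [ec10]; linarith only [s1, s2])
    (by simp only [x0]; push_cast; norm_num) (by push_cast; norm_num) (by norm_num)
    (hc (8431706587106, 7935723846688, 3220935996805) (by simp [V3])) (hk (8431706587106, 7935723846688, 3220935996805) (by simp [V3])) hY
    (by linarith only [c8, o1]) (by norm_num)
  unfold box4 Bx
  exact ⟨by linarith only [c10, o1],
    by linarith only [c9, c6],
    by linarith only [o1, c9],
    by linarith only [c10, o1]⟩

theorem stg : S_STG := ⟨stage0, stage1, stage2, stage3⟩

end Pool.Agent.MDS.Up
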