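import Pool.Agent.MDS.Up.Stmts2
import Pool.Agent.MDS.Up.Stg

set_option autoImplicit false

/-! # UP6a: the induction over the stages (PAPER.md, section 4) -/

namespace Pool.Agent.MDS.Up

/-- the vectors of a stage are admissible at the scale `Bn` -/
def Okv (Bn : ℝ) (w : ℤ × ℤ × ℤ) : Prop :=
  200032 ≤ w.1 ∧ (w.1 : ℝ) + 32 ≤ Bn ∧ |x0 w| ≤ 16 / 17 ∧ |θs w| ≤ 1 / 1000

theorem stage_hyp (hA : S_ALG) {X Y R : ℝ}
    (hw : ∀ w : ℤ × ℤ × ℤ, 200000 ≤ w.1 → (w.1 : ℝ) ≤ R → |x0 w| ≤ 16 / 17 →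
      3819 / 10000 ≤ |θs w + x0 w * X + w.1 * Y| * w.1)
    {V : List (ℤ × ℤ × ℤ)} {Bn : ℝ} (hV : ∀ w ∈ V, Okv Bn w) (n : ℕ) (hR : lam ^ n * Bn ≤ R) :
    (∀ w ∈ V, |(((stepA^[n] w).1 : ℤ) : ℝ) / lam ^ n - w.1| ≤ 32) ∧
    ∀ w ∈ V, 3819 / 10000 ≤ |θs w + x0 w * (lam ^ n * X) +
      (((stepA^[n] w).1 : ℤ) : ℝ) / lam ^ n * (lam ^ (2 * n) * Y)| *
        ((((stepA^[n] w).1 : ℤ) : ℝ) / lam ^ n) := by
  obtain ⟨hstep, hl1, hl2, -⟩ := hA
  have hlam : 1 ≤ lam := by linarith
  have hp1 : 1 ≤ lam ^ n := one_le_pow₀ hlam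
  have hp : 0 < lam ^ n := by linarith
  have hc : ∀ w ∈ V, |(((stepA^[n] w).1 : ℤ) : ℝ) / lam ^ n - w.1| ≤ 32 := by
    intro w hwV
    obtain ⟨-, -, h3, h4⟩ := hV w hwV
    obtain ⟨-, -, h⟩ := hstep n w
    nlinarith
  refine ⟨hc, fun w hwV => ?_⟩
  obtain ⟨h1, h2, h3, h4⟩ := hV w hwV
  obtain ⟨e1, e2, -⟩ := hstep n w
  obtain ⟨c1, c2⟩ := abs_le.1 (hc w hwV)
  set w' := stepA^[n] w with hw'
  set c : ℝ := ((w'.1 : ℤ) : ℝ) / lam ^ n with hcdef
  have hb : ((w'.1 : ℤ) : ℝ) = lam ^ n * c := by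
    rw [hcdef]; field_simp
  have h1' : (200032 : ℝ) ≤ w.1 := by exact_mod_cast h1
  have hclo : 200000 ≤ c := by linarith
  have hlow : (200000 : ℝ) ≤ ((w'.1 : ℤ) : ℝ) := by
    rw [hb]; nlinarith
  have hlow' : (200000 : ℤ) ≤ w'.1 := by exact_mod_cast hlow
  have hhigh : ((w'.1 : ℤ) : ℝ) ≤ R := by
    rw [hb]
    refine le_trans (mul_le_mul_of_nonneg_left ?_ hp.le) hR
    linarith
  have key := hw w' hlow' hhigh (by rw [e1]; exact h3)
  rw [e1, hb] at key
  have e3 : θs w' = θs w / lam ^ n := by rw [← e2]; field_simp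
  rw [e3] at key
  have e4 : θs w / lam ^ n + x0 w * X + lam ^ n * c * Y =
      (θs w + x0 w * (lam ^ n * X) + c * (lam ^ (2 * n) * Y)) / lam ^ n := by
    have : lam ^ (2 * n) = lam ^ n * lam ^ n := by rw [two_mul, pow_add]
    rw [this]
    field_simp
  rw [e4, abs_div, abs_of_pos hp] at key
  have e5 : |θs w + x0 w * (lam ^ n * X) + c * (lam ^ (2 * n) * Y)| / lam ^ n * (lam ^ n * c) =
      |θs w + x0 w * (lam ^ n * X) + c * (lam ^ (2 * n) * Y)| * c := by
    field_simp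
  rwa [e5] at key

theorem okv_of {Bn : ℝ} {b a n : ℤ} {u v : ℝ} (h1 : 200032 ≤ b) (h2 : (b : ℝ) + 32 ≤ Bn)
    (h3 : |(a : ℝ) - 16 / 17 * b| ≤ 16 / 17) (h4 : θs (b, a, n) = u + v * sD)
    (h5 : -(1 / 1000) ≤ u + v * sD) (h6 : u + v * sD ≤ 1 / 1000) : Okv Bn (b, a, n) :=
  ⟨h1, h2, h3, by rw [h4]; exact abs_le.2 ⟨h5, h6⟩⟩

theorem θs_eq (b a n : ℤ) : θs (b, a, n) =
    ((b : ℝ) * (1461589 / 3296404) + a * (-1766685 / 26371232) - n) +
      ((b : ℝ) * (-537649 / 8668784347080) + a * (2360867 / 34675137388320)) * sD := by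
  simp only [θs, βs, γs]; ring

theorem okV0 : ∀ w ∈ V0, Okv (2 ^ 24) w := by
  intro w hw
  simp only [V0, List.mem_cons, List.not_mem_nil, or_false] at hw
  rcases hw with h | h | h | h | h | h | h | h <;> subst h <;>
    (refine okv_of (by norm_num) (by norm_num) (by norm_num [abs_le]) (θs_eq _ _ _) ?_ ?_ <;>
      (obtain ⟨s1, s2⟩ := sD_bounds
       push_cast
       norm_num
       linarith only [s1, s2]))

theorem okV1 : ∀ w ∈ V1, Okv (2 ^ 30) w := by
  intro w hw
  simp only [V1, List.mem_cons, List.not_mem_nil, or_false] at hw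
  rcases hw with h | h | h | h | h | h | h | h | h | h <;> subst h <;>
    (refine okv_of (by norm_num) (by norm_num) (by norm_num [abs_le]) (θs_eq _ _ _) ?_ ?_ <;>
      (obtain ⟨s1, s2⟩ := sD_bounds
       push_cast
       norm_num
       linarith only [s1, s2]))

theorem okV2 : ∀ w ∈ V2, Okv (2 ^ 36) w := by
  intro w hw
  simp only [V2, List.mem_cons, List.not_mem_nil, or_false] at hw
  rcases hw with h | h | h | h | h | h | h | h | h <;> subst h <;>
    (refine okv_of (by norm_num) (by norm_num) (by norm_num [abs_le]) (θs_eq _ _ _) ?_ ?_ <;>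
      (obtain ⟨s1, s2⟩ := sD_bounds
       push_cast
       norm_num
       linarith only [s1, s2]))

theorem okV3' : ∀ w ∈ V3, Okv (388396819 / 10 * 2 ^ 18) w := by
  intro w hw
  simp only [V3, List.mem_cons, List.not_mem_nil, or_false] at hw
  rcases hw with h | h | h | h | h | h | h | h | h | h <;> subst h <;>
    (refine okv_of (by norm_num) (by norm_num) (by norm_num [abs_le]) (θs_eq _ _ _) ?_ ?_ <;>
      (obtain ⟨s1, s2⟩ := sD_bounds
       push_cast
       norm_num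
       linarith only [s1, s2]))

theorem okV3 (hl : 388396819 / 10 < lam) : ∀ w ∈ V3, Okv (lam * 2 ^ 18) w := by
  intro w hw
  obtain ⟨h1, h2, h3, h4⟩ := okV3' w hw
  exact ⟨h1, by linarith, h3, h4⟩

/-- the final estimate from a box -/
theorem fin_of_box {x₀ x₁ y₀ y₁ X Y R S p q u v : ℝ} {n : ℕ} (hl : 0 < lam)
    (h : Bx x₀ x₁ y₀ y₁ (lam ^ n * X) (lam ^ (2 * n) * Y)) (hR : 0 < R) (hS : R < lam ^ n * S)
    (h1 : -p ≤ x₀) (h2 : x₁ ≤ p) (h3 : -q ≤ y₀) (h4 : y₁ ≤ q)
    (hu : p * S ≤ u) (hv : q * S ^ 2 ≤ v) :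
    |X| * R ≤ u ∧ |Y| * R ^ 2 ≤ v := by
  obtain ⟨g1, g2, g3, g4⟩ := h
  have hp : 0 < lam ^ n := pow_pos hl n
  have hp2 : lam ^ (2 * n) = lam ^ n * lam ^ n := by rw [two_mul, pow_add]
  have a1 : lam ^ n * |X| ≤ p := by
    rw [← abs_of_pos hp, ← abs_mul]
    exact abs_le.2 ⟨by linarith, by linarith⟩
  have a2 : lam ^ n * lam ^ n * |Y| ≤ q := by
    rw [hp2] at g3 g4
    rw [← abs_of_pos (mul_pos hp hp), ← abs_mul]
    exact abs_le.2 ⟨by linarith, by linarith⟩
  have hS0 : 0 < S := by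
    by_contra hcon
    push Not at hcon
    have := mul_nonneg hp.le (neg_nonneg.2 hcon)
    linarith
  constructor
  · have : |X| * R ≤ |X| * (lam ^ n * S) := mul_le_mul_of_nonneg_left hS.le (abs_nonneg _)
    have h5 : |X| * (lam ^ n * S) ≤ p * S := by
      have := mul_le_mul_of_nonneg_right a1 hS0.le
      linarith
    linarith
  · have h6 : R ^ 2 ≤ (lam ^ n * S) ^ 2 := pow_le_pow_left₀ hR.le hS.le 2
    have h7 : |Y| * R ^ 2 ≤ |Y| * (lam ^ n * S) ^ 2 := mul_le_mul_of_nonneg_left h6 (abs_nonneg _)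
    have h8 : |Y| * (lam ^ n * S) ^ 2 ≤ q * S ^ 2 := by
      have := mul_le_mul_of_nonneg_right a2 (sq_nonneg S)
      linarith
    linarith

/-- **UP6a** -/
theorem chain : S_CHAIN := by
  intro hA hS X Y R hR hbox hobj hw
  obtain ⟨st0, st1, st2, st3⟩ := hS
  have hA' := hA
  obtain ⟨-, hl1, hl2, -⟩ := hA'
  have hl : 0 < lam := by linarith
  have hl1' : 1 ≤ lam := by linarith
  -- the objective at all levels
  have hob : ∀ n : ℕ, -303 * max (lam ^ (2 * n) * Y) 0 ≤ lam ^ n * X := by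
    intro n
    have hp1 : 1 ≤ lam ^ n := one_le_pow₀ hl1'
    have hp : 0 < lam ^ n := by linarith
    have e1 : max (lam ^ (2 * n) * Y) 0 = lam ^ (2 * n) * max Y 0 := by
      rw [mul_max_of_nonneg _ _ (pow_pos hl _).le, mul_zero]
    have e2 : lam ^ (2 * n) = lam ^ n * lam ^ n := by rw [two_mul, pow_add]
    rw [e1, e2]
    have h1 : lam ^ n * (-303 * max Y 0) ≤ lam ^ n * X := mul_le_mul_of_nonneg_left hobj hp.le
    have h2 : 0 ≤ lam ^ n * max Y 0 := mul_nonneg hp.le (le_max_right _ _)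
    nlinarith
  have main : ∀ n : ℕ, (|X| * R ≤ 20 ∧ |Y| * R ^ 2 ≤ 4000) ∨
      box0 (lam ^ n * X) (lam ^ (2 * n) * Y) := by
    intro n
    induction n with
    | zero => right; simpa using hbox
    | succ n ih =>
      rcases ih with h | hb0
      · exact Or.inl h
      by_cases c0 : lam ^ n * 2 ^ 24 ≤ R
      swap
      · left
        push Not at c0
        exact fin_of_box (p := 3 / 10 / 262144) (q := 1 / 10 / 262144 ^ 2) hl hb0 hR c0
          (by norm_num) (by norm_num) (by norm_num) (by norm_num) (by norm_num) (by norm_num)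
      obtain ⟨k1, k2⟩ := stage_hyp hA hw okV0 n c0
      have hb1 := st0 _ _ _ k1 k2 (hob n) hb0
      by_cases c1 : lam ^ n * 2 ^ 30 ≤ R
      swap
      · left
        push Not at c1
        exact fin_of_box (p := 3 / 25 / 16777216) (q := 27 / 100 / 16777216 ^ 2) hl hb1 hR c1
          (by norm_num) (by norm_num) (by norm_num) (by norm_num) (by norm_num) (by norm_num)
      obtain ⟨k1, k2⟩ := stage_hyp hA hw okV1 n c1
      have hb2 := st1 _ _ _ k1 k2 (hob n) hb1
      by_cases c2 : lam ^ n * 2 ^ 36 ≤ R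
      swap
      · left
        push Not at c2
        exact fin_of_box (p := 13 / 100 / 1073741824) (q := 1 / 5 / 1073741824 ^ 2) hl hb2 hR c2
          (by norm_num) (by norm_num) (by norm_num) (by norm_num) (by norm_num) (by norm_num)
      obtain ⟨k1, k2⟩ := stage_hyp hA hw okV2 n c2
      have hb3 := st2 _ _ _ k1 k2 (hob n) hb2
      by_cases c3 : lam ^ n * (lam * 2 ^ 18) ≤ R
      swap
      · left
        push Not at c3
        refine fin_of_box (p := 96 / 1000 / 68719476736) (q := 172 / 1000 / 68719476736 ^ 2) hl hb3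
          hR c3 (by norm_num) (by norm_num) (by norm_num) (by norm_num) ?_ ?_
        · linarith
        · have : (lam * 2 ^ 18) ^ 2 ≤ (38839682 * 2 ^ 18) ^ 2 :=
            pow_le_pow_left₀ (by positivity) (by linarith) 2
          have h2 := mul_le_mul_of_nonneg_left this
            (show (0 : ℝ) ≤ 172 / 1000 / 68719476736 ^ 2 by norm_num)
          refine h2.trans ?_
          norm_num
      obtain ⟨k1, k2⟩ := stage_hyp hA hw (okV3 hl1) n c3
      obtain ⟨g1, g2, g3, g4⟩ := st3 _ _ _ k1 k2 (hob n) hb3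
      right
      have e1 : lam ^ (n + 1) * X = lam * (lam ^ n * X) := by ring
      have e2 : lam ^ (2 * (n + 1)) * Y = lam ^ 2 * (lam ^ (2 * n) * Y) := by ring
      rw [e1, e2]
      have hlsq : lam ^ 2 ≤ 38839682 ^ 2 := pow_le_pow_left₀ hl.le hl2.le 2
      have hlsq0 : 0 ≤ lam ^ 2 := by positivity
      set U := lam ^ n * X with hU
      set W := lam ^ (2 * n) * Y with hW
      refine ⟨?_, ?_, ?_, ?_⟩
      · have h1 := mul_le_mul_of_nonneg_left g1 hl.le
        have h2 : lam * (-1 / 200 / 10181589598208) ≥ 38839682 * (-1 / 200 / 10181589598208) :=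
          mul_le_mul_of_nonpos_right hl2.le (by norm_num)
        refine le_trans ?_ (le_trans h2 h1)
        norm_num
      · have h1 := mul_le_mul_of_nonneg_left g2 hl.le
        have h2 : lam * (28 / 100 / 10181589598208) ≤ 38839682 * (28 / 100 / 10181589598208) :=
          mul_le_mul_of_nonneg_right hl2.le (by norm_num)
        refine le_trans (le_trans h1 h2) ?_
        norm_num
      · have h1 := mul_le_mul_of_nonneg_left g3 hlsq0
        have h2 : lam ^ 2 * (-9 / 100 / 10181589598208 ^ 2) ≥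
            38839682 ^ 2 * (-9 / 100 / 10181589598208 ^ 2) :=
          mul_le_mul_of_nonpos_right hlsq (by norm_num)
        refine le_trans ?_ (le_trans h2 h1)
        norm_num
      · have h1 := mul_le_mul_of_nonneg_left g4 hlsq0
        have h2 : lam ^ 2 * (1 / 25 / 10181589598208 ^ 2) ≤
            38839682 ^ 2 * (1 / 25 / 10181589598208 ^ 2) :=
          mul_le_mul_of_nonneg_right hlsq (by norm_num)
        refine le_trans (le_trans h1 h2) ?_
        norm_num
  -- large `n`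
  obtain ⟨n, hn⟩ := pow_unbounded_of_one_lt R (show 1 < lam by linarith)
  rcases main n with h | h
  · exact h
  · exact fin_of_box (S := 1) (p := 3 / 10 / 262144) (q := 1 / 10 / 262144 ^ 2) hl h hR
      (by rw [mul_one]; exact hn)
      (by norm_num) (by norm_num) (by norm_num) (by norm_num) (by norm_num) (by norm_num)

end Pool.Agent.MDS.Up
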