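import Pool.Agent.MDS.Up.Defs

set_option autoImplicit false

namespace Pool.Agent.MDS.Up

/-- bounds of the exceptional region: `z ∈ [ZL0, ZL1] / D`, `ρ ≥ RL0 / D` -/
def ZL0 : ℤ := 18446744054109886038
def ZL1 : ℤ := 18446747601649355712
def RL0 : ℤ := 19580065912738082194

/-- the polygon of the exceptional region -/
def PL : List Ineq :=
  [⟨-1, 1, -233256116793893881⟩, ⟨1, -1, 233232939088780364⟩,
   ⟨1, 16, 127281179851329423194⟩, ⟨-1, -16, -127281179852056715507⟩]

/-- all inequalities of the list follow from the pairs of inequalities with the given indices -/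
def impAll (s : St) : List Ineq → List (ℕ × ℕ) → Bool
  | [], _ => true
  | _ :: _, [] => false
  | l :: ls, j :: js => imp (s.get j.1) (s.get j.2) l && impAll s ls js

/-- the checker -/
def check : Cert → St → Bool
  | .zs zm l r, s => check l { s with z1 := zm } && check r { s with z0 := zm }
  | .rs rm l r, s => check l { s with r1 := rm } && check r { s with r0 := rm }
  | .cut b a n e l r, s =>
    let xl := (a : ℤ) * D - b * s.z1
    let xh := (a : ℤ) * D - b * s.z0
    let Y := (b : ℤ) * (D * D) + (if 0 < xh then xh * s.th else xh * s.tl)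
    decide (1 ≤ b) && decide (b ≤ 1048576) &&
    ((b == 1 && a == 0) || (decide (-s.r0 < xl) && decide (xh < s.r0))) &&
    decide (0 < s.r1) && decide ((e : ℤ) * s.r1 * Y ≤ THR * (D * D * D)) &&
    check l { s with H := ⟨(b : ℤ) - a, a, (n : ℤ) * D + e⟩ :: s.H } &&
    check r { s with H := ⟨(a : ℤ) - b, -(a : ℤ), e - (n : ℤ) * D⟩ :: s.H }
  | .tb i j nb t' c, s =>
    decide (0 < nb) && decide (0 < s.z0) && decide (0 < s.r1) &&
    imp (s.get i) (s.get j) ⟨-1, 0, -nb⟩ &&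
    decide (D * D * (s.r1 * nb - THR * D) ≤ t' * s.z0 * s.r1 * nb) &&
    check c { s with th := t' }
  | .tl i j nv t' c, s =>
    decide (0 < nv) && decide (0 < s.r1) && decide (D - s.z0 < s.r0) && decide (s.z0 < D) &&
    (decide (D ≤ 2 * nv) || imp (s.get i) (s.get j) ⟨0, -1, -nv⟩) &&
    decide (t' * (D - s.z0) * s.r1 * nv ≤ D * D * (THR * D - s.r1 * nv)) &&
    check c { s with tl := t' }
  | .ob side b0 v0 k l i j h c, s =>
    let zz := if side then s.z1 else s.z0
    decide (0 < b0) && decide (0 < v0) && decide (0 ≤ k) && decide (D - s.z0 < s.r0) &&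
    decide (0 < s.r1) && decide (0 ≤ zz) && decide (zz ≤ D) && decide (s.z0 ≤ s.z1) &&
    imp (s.get i) (s.get j) l &&
    (if side then
      decide (l.p * (b0 * b0) ≤ -(SC * D * D)) && decide (l.q * (v0 * v0) ≤ SC * D * D) &&
      decide (SC * (2 * D * D * b0 - 2 * D * D * v0 - k * b0 * v0) ≤ l.d * b0 * v0)
    else
      decide (l.p * (b0 * b0) ≤ SC * D * D) && decide (l.q * (v0 * v0) ≤ -(SC * D * D)) &&
      decide (SC * (2 * D * D * v0 - 2 * D * D * b0 - k * b0 * v0) ≤ l.d * b0 * v0)) &&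
    decide (SC * (D - zz) * D ≤ h.p * (b0 * b0)) && decide (SC * zz * D ≤ h.q * (v0 * v0)) &&
    decide (h.d * b0 * v0 * THR * D ≤ SC * (2 * (D - zz) * v0 * THR * (D * D) +
      2 * zz * b0 * THR * (D * D) - (s.z1 - s.z0) * k * b0 * v0 * THR - s.r1 * b0 * v0 * (D * D))) &&
    check c { s with H := h :: s.H }
  | .tri i j k, s => contra (s.get i) (s.get j) (s.get k)
  | .bad, s => decide (s.th < s.tl)
  | .zr, s => decide (s.r1 ≤ s.z0)
  | .loc js, s => decide (ZL0 ≤ s.z0) && decide (s.z1 ≤ ZL1) && decide (RL0 ≤ s.r0) &&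
      impAll s PL js

/-- the root state -/
def root : St :=
  ⟨0, D, 2 * THR, D, 0, D, [⟨1, 0, 0⟩, ⟨-2, 0, -D⟩, ⟨0, 1, 0⟩, ⟨0, -1, -D⟩]⟩

/-- the exceptional region -/
def Loc (z β v ρ : ℝ) : Prop :=
  (ZL0 : ℝ) / D ≤ z ∧ z ≤ (ZL1 : ℝ) / D ∧ (RL0 : ℝ) / D ≤ ρ ∧
    ∀ l ∈ PL, (l.d : ℝ) / D ≤ l.p * β + l.q * v

end Pool.Agent.MDS.Up
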