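import Pool.Agent.MDS.Up.Data

set_option autoImplicit false
set_option maxRecDepth 100000

/-! # UP3: the global certificate is accepted by the checker -/

namespace Pool.Agent.MDS.Up

theorem cert_ok : check Data.cert root = true := by decide +kernel

end Pool.Agent.MDS.Up
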