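import Mathlib

set_option autoImplicit false

/-!
# MP_85fa44_nt, upper bound: definitions

See `PAPER.md` in this folder.
-/

namespace Pool.Agent.MDS.Up

/-- distance to the nearest integer -/
noncomputable def nd (x : ℝ) : ℝ := |x - round x|

/-- the supremum of the multiplicative Dirichlet spectrum -/
noncomputable def F : ℝ :=
  6209318411912960898313 / 16362765653983676769060 +
    8878546621181637349 / 2868687348925110243798061080 * √654739973030

/-- The parameters of one scale: `m` is a lower bound of all products at that scale (for the points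
with `b ≤ B`). -/
def Adm (B : ℕ) (z t β v ρ m : ℝ) : Prop :=
  0 < z ∧ z < ρ ∧ ρ ≤ 1 ∧ 0 ≤ t ∧ t * (1 + z) ≤ 1 ∧ 0 ≤ β ∧ β ≤ 1 / 2 ∧ 0 ≤ v ∧ v ≤ 1 ∧
  ∀ (b : ℕ) (a n : ℤ), 1 ≤ b → b ≤ B → |(a : ℝ) - b * z| < ρ →
    m ≤ ρ * (b + (a - b * z) * t) * |((b : ℝ) - a) * β + a * v - n|

/-! ### the certificate checker -/

/-- scale of all integers in the certificate -/
def D : ℤ := 19599665578316398592

/-- threshold: `THR / D < F` -/
def THR : ℤ := 7486736671322732002

/-- scale of the objective cuts -/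
def SC : ℤ := 1125899906842624

/-- a linear inequality `p * β + q * v ≥ d / D` -/
structure Ineq where
  p : ℤ
  q : ℤ
  d : ℤ

/-- state of the checker: `z ∈ [z0, z1] / D`, `ρ ∈ [r0, r1] / D`, `t ∈ [tl, th] / D` and the
inequalities `H` hold -/
structure St where
  z0 : ℤ
  z1 : ℤ
  r0 : ℤ
  r1 : ℤ
  tl : ℤ
  th : ℤ
  H : List Ineq

/-- certificates -/
inductive Cert where
  /-- split the `z`-interval at `zm` -/
  | zs (zm : ℤ) (l r : Cert)
  /-- split the `ρ`-interval at `rm`; `l`: `ρ ≤ rm`, `r`: `ρ ≥ rm` -/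
  | rs (rm : ℤ) (l r : Cert)
  /-- the point `(b, a)`; `l`: `θ ≥ n + s / D`, `r`: `θ ≤ n - s / D`, where
  `θ = (b - a) β + a v` -/
  | cut (b a n s : ℕ) (l r : Cert)
  /-- new upper bound `t' / D` of `t`, from `β ≤ nb / D` (implied by the inequalities `i`, `j`) -/
  | tb (i j : ℕ) (nb t' : ℤ) (c : Cert)
  /-- new lower bound `t' / D` of `t`, from `v ≤ nv / D` (implied by the inequalities `i`, `j`) or
  from `nv = D / 2` -/
  | tl (i j : ℕ) (nv t' : ℤ) (c : Cert)
  /-- objective cut at the tangent point `(b0, v0) / D`, see `PAPER.md` -/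
  | ob (side : Bool) (b0 v0 k : ℤ) (l : Ineq) (i j : ℕ) (h : Ineq) (c : Cert)
  /-- the inequalities `i`, `j`, `k` are contradictory -/
  | tri (i j k : ℕ)
  /-- `tl > th` -/
  | bad
  /-- `z0 ≥ r1` -/
  | zr
  /-- the exceptional region; one pair of indices for every inequality in `PL` -/
  | loc (js : List (ℕ × ℕ))

/-- `i`-th inequality (head of the list = the most recent one) -/
def St.get (s : St) (i : ℕ) : Ineq := s.H.getD i ⟨0, 0, 0⟩

/-- the inequality `l` follows from `g` and `h` (Cramer) -/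
def imp (g h l : Ineq) : Bool :=
  let e := g.p * h.q - h.p * g.q
  let x := l.p * h.q - l.q * h.p
  let y := g.p * l.q - g.q * l.p
  decide (0 < e) && decide (0 ≤ x) && decide (0 ≤ y) && decide (l.d * e ≤ x * g.d + y * h.d)

/-- three inequalities are contradictory -/
def contra (g h l : Ineq) : Bool :=
  let x := h.p * l.q - l.p * h.q
  let y := l.p * g.q - g.p * l.q
  let w := g.p * h.q - h.p * g.q
  decide (0 ≤ x) && decide (0 ≤ y) && decide (0 ≤ w) && decide (0 < x * g.d + y * h.d + w * l.d)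

end Pool.Agent.MDS.Up
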