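import Pool.Agent.MDS.Up.Stmts2

set_option autoImplicit false

/-!
# MP_85fa44_nt, upper bound: the local theorem from the chain (module UP6b, helper82)

See `PAPER.md`, section 5.
-/

namespace Pool.Agent.MDS.Up

namespace LocalPart

lemma sD_bounds : (8091600416666655938806 / 10 ^ 16 : ℝ) ≤ sD ∧
    sD ≤ 8091600416666655938807 / 10 ^ 16 := by
  unfold sD
  constructor
  · apply Real.le_sqrt_of_sq_le
    norm_num
  · apply Real.sqrt_le_iff.mpr
    norm_num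

lemma F_bounds : (38198287 / 10 ^ 8 : ℝ) ≤ F ∧ F ≤ 38198288 / 10 ^ 8 := by
  have h := sD_bounds
  have e : F = 6209318411912960898313 / 16362765653983676769060 +
    8878546621181637349 / 2868687348925110243798061080 * sD := rfl
  rw [e]
  constructor
  · linarith [h.1]
  · linarith [h.2]

lemma bs_bounds : (39320378 / 10 ^ 8 : ℝ) ≤ βs ∧ βs ≤ 39320379 / 10 ^ 8 := by
  have h := sD_bounds
  unfold βs
  constructor
  · linarith [h.2]
  · linarith [h.1]

lemma vs_bounds : (38130279 / 10 ^ 8 : ℝ) ≤ vs ∧ vs ≤ 38130280 / 10 ^ 8 := by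
  have h := sD_bounds
  unfold vs βs γs
  constructor
  · linarith [h.1, h.2]
  · linarith [h.1, h.2]

/-- the identity `θ = θs + x0 d1 + b d2` -/
lemma theta_id (b a n β v : ℝ) :
    (b - a) * β + a * v - n =
      (b * βs + a * γs - n) + (a - 16 / 17 * b) * (v - β - γs) +
        b * ((β + 16 * v) / 17 - (βs + 16 * vs) / 17) := by
  unfold vs
  ring

/-- the bounds of `d1`, `d2` in the exceptional region -/
lemma box0_of_loc {z β v ρ : ℝ} (h : Loc z β v ρ) :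
    box0 (v - β - γs) ((β + 16 * v) / 17 - (βs + 16 * vs) / 17) := by
  obtain ⟨-, -, -, hP⟩ := h
  have h1 := hP ⟨-1, 1, -233256116793893881⟩ (by simp [PL])
  have h2 := hP ⟨1, -1, 233232939088780364⟩ (by simp [PL])
  have h3 := hP ⟨1, 16, 127281179851329423194⟩ (by simp [PL])
  have h4 := hP ⟨-1, -16, -127281179852056715507⟩ (by simp [PL])
  have hs := sD_bounds
  simp only [D] at h1 h2 h3 h4
  push_cast at h1 h2 h3 h4
  norm_num at h1 h2 h3 h4
  unfold box0 Bx vs βs γs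
  refine ⟨?_, ?_, ?_, ?_⟩
  · linarith [hs.1, hs.2]
  · linarith [hs.1, hs.2]
  · linarith [hs.1, hs.2]
  · linarith [hs.1, hs.2]

lemma z_of_loc {z β v ρ : ℝ} (h : Loc z β v ρ) :
    -(1 / 10 ^ 9) ≤ z - 16 / 17 ∧ z - 16 / 17 ≤ 18 / 10 ^ 8 ∧ 999 / 1000 ≤ ρ := by
  obtain ⟨h1, h2, h3, -⟩ := h
  simp only [D, ZL0, ZL1, RL0] at h1 h2 h3
  push_cast at h1 h2 h3
  norm_num at h1 h2 h3
  refine ⟨?_, ?_, ?_⟩
  · linarith
  · linarith
  · linarith

/-- tangent inequality -/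
lemma tangent {p β c m ρ : ℝ} (hβ : 0 < β) (hm : 0 < m) (h : m ≤ ρ * c * β) :
    2 * p - β * p ^ 2 ≤ c * (ρ / m) := by
  have h1 : 1 ≤ c * (ρ / m) * β := by
    have e : c * (ρ / m) * β = (ρ * c * β) / m := by ring
    rw [e, le_div_iff₀ hm]
    linarith
  have h2 : (2 * p - β * p ^ 2) * β ≤ 1 := by nlinarith [sq_nonneg (1 - β * p)]
  exact le_of_mul_le_mul_right (h2.trans h1) hβ

/-- the objective inequality -/
lemma objective {z t β v ρ m p q : ℝ} (hz0 : 0 < z) (hz1 : z ≤ 1) (hβ : 0 < β) (hv : 0 < v)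
    (hm : 0 < m) (h1 : m ≤ ρ * (1 - z * t) * β) (h2 : m ≤ ρ * (1 + (1 - z) * t) * v)
    (hp : p * βs = 1) (hq : q * vs = 1) :
    p / 17 + 16 * q / 17 - ρ / m +
        (z - 16 / 17) * ((q - q ^ 2 * (v - vs)) - (p - p ^ 2 * (β - βs))) ≤
      p ^ 2 / 17 * (β - βs) + 16 / 17 * q ^ 2 * (v - vs) := by
  have t1 := tangent (p := p) hβ hm h1
  have t2 := tangent (p := q) hv hm h2
  have s1 := mul_le_mul_of_nonneg_left t1 (by linarith : 0 ≤ 1 - z)
  have s2 := mul_le_mul_of_nonneg_left t2 hz0.le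
  have hp2 : p ^ 2 * βs = p := by rw [sq, mul_assoc, hp, mul_one]
  have hq2 : q ^ 2 * vs = q := by rw [sq, mul_assoc, hq, mul_one]
  have e : (1 - z) * ((1 - z * t) * (ρ / m)) + z * ((1 + (1 - z) * t) * (ρ / m)) = ρ / m := by ring
  have e1 : (1 - z) * (2 * p - β * p ^ 2) = (1 - z) * (p - p ^ 2 * (β - βs)) := by
    linear_combination (-(1 - z)) * hp2
  have e2 : z * (2 * q - v * q ^ 2) = z * (q - q ^ 2 * (v - vs)) := by
    linear_combination (-z) * hq2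
  linarith [s1, s2, e, e1, e2]

lemma small {ρ y θ m Y c : ℝ} (_hρ0 : 0 ≤ ρ) (hρ1 : ρ ≤ 1) (hy0 : 0 ≤ y) (hy : y ≤ Y)
    (hθ : |θ| ≤ c) (hm : m ≤ ρ * y * |θ|) : m ≤ Y * c := by
  have h1 : ρ * y ≤ Y := by nlinarith
  have h2 : 0 ≤ |θ| := abs_nonneg _
  calc m ≤ ρ * y * |θ| := hm
    _ ≤ Y * |θ| := mul_le_mul_of_nonneg_right h1 h2
    _ ≤ Y * c := mul_le_mul_of_nonneg_left hθ (hy0.trans hy)

lemma prod_bound {a x A X : ℝ} (ha0 : 0 ≤ a) (ha : a ≤ A) (h1 : -X ≤ x) (h2 : x ≤ X) :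
    -(A * X) ≤ a * x ∧ a * x ≤ A * X := by
  have hx : |x| ≤ X := abs_le.mpr ⟨h1, h2⟩
  have h3 : |a * x| ≤ A * X := by
    rw [abs_mul, abs_of_nonneg ha0]
    exact mul_le_mul ha hx (abs_nonneg _) (ha0.trans ha)
  exact abs_le.mp h3

lemma pq_bounds {p q : ℝ} (hp : p * βs = 1) (hq : q * vs = 1) :
    (254321 / 100000 ≤ p ∧ p ≤ 2543211 / 1000000) ∧ 2622587 / 1000000 ≤ q ∧
      q ≤ 2622588 / 1000000 := by
  obtain ⟨hbl, hbu⟩ := bs_bounds
  obtain ⟨hvl, hvu⟩ := vs_bounds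
  have hp0 : 0 < p := by
    by_contra hc
    push Not at hc
    have := mul_nonpos_of_nonpos_of_nonneg hc (by linarith : 0 ≤ βs)
    linarith
  have hq0 : 0 < q := by
    by_contra hc
    push Not at hc
    have := mul_nonpos_of_nonpos_of_nonneg hc (by linarith : 0 ≤ vs)
    linarith
  have h1 := mul_le_mul_of_nonneg_left hbl hp0.le
  have h2 := mul_le_mul_of_nonneg_left hbu hp0.le
  have h3 := mul_le_mul_of_nonneg_left hvl hq0.le
  have h4 := mul_le_mul_of_nonneg_left hvu hq0.le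
  rw [hp] at h1 h2
  rw [hq] at h3 h4
  refine ⟨⟨?_, ?_⟩, ?_, ?_⟩ <;> linarith

lemma sq_bounds {p lo hi : ℝ} (h0 : 0 ≤ lo) (h1 : lo ≤ p) (h2 : p ≤ hi) :
    lo ^ 2 ≤ p ^ 2 ∧ p ^ 2 ≤ hi ^ 2 :=
  ⟨pow_le_pow_left₀ h0 h1 2, pow_le_pow_left₀ (h0.trans h1) h2 2⟩

lemma m_le_half {z t β ρ m : ℝ} (hz0 : 0 < z) (hz1 : z ≤ 1) (ht0 : 0 ≤ t) (ht1 : t ≤ 1)
    (_hρ0 : 0 < ρ) (hρ1 : ρ ≤ 1) (hβ0 : 0 < β) (hβ1 : β ≤ 1 / 2)
    (h : m ≤ ρ * (1 - z * t) * β) : m ≤ 1 / 2 := by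
  have h1 : 0 ≤ z * t := mul_nonneg hz0.le ht0
  have h1' : z * t ≤ 1 * 1 := mul_le_mul hz1 ht1 ht0 (by norm_num)
  have h3 : ρ * (1 - z * t) ≤ 1 * 1 := mul_le_mul hρ1 (by linarith) (by linarith) (by norm_num)
  have h4 : ρ * (1 - z * t) * β ≤ 1 * 1 * (1 / 2) :=
    mul_le_mul h3 hβ1 hβ0.le (by norm_num)
  linarith

lemma fm_ge {f G m : ℝ} (h : f * G = 1) (hf : 0 < f) (hm : G < m) : 1 ≤ f * m := by
  rw [← h]
  exact mul_le_mul_of_nonneg_left hm.le hf.le

lemma u_le {ρ m f : ℝ} (hm : 0 < m) (hρ : 0 < ρ) (h : 1 ≤ f * m) : ρ / m ≤ ρ * f := by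
  rw [div_le_iff₀ hm]
  nlinarith

lemma delta_eps {f G m ρ ε : ℝ} (hfG : f * G = 1) (hf : 26 / 10 ≤ f) (hm : G + ε < m)
    (hm0 : 0 < m) (hm2 : m ≤ 1 / 2) (hρ1 : ρ ≤ 1) (hε : 0 < ε) : 5 * ε ≤ f - ρ / m := by
  have h1 : (f - ρ / m) * m = f * m - ρ := by
    rw [sub_mul, div_mul_cancel₀ _ hm0.ne']
  have h2 : 26 / 10 * ε ≤ (f - ρ / m) * m := by
    rw [h1]
    nlinarith
  by_contra hc
  push Not at hc
  rcases le_total 0 (f - ρ / m) with h | h
  · nlinarith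
  · nlinarith

lemma obj_cond {c1 c2 d1 d2 : ℝ} (hc1 : 227 / 10000 ≤ c1) (hc2 : c2 ≤ 686 / 100)
    (hc2' : 0 ≤ c2) (h : 0 < c1 * d1 + c2 * d2) : -303 * max d2 0 ≤ d1 := by
  by_contra hc
  push Not at hc
  rcases le_total d2 0 with h' | h'
  · rw [max_eq_right h'] at hc
    nlinarith
  · rw [max_eq_left h'] at hc
    nlinarith

lemma y_bounds {b x t X : ℝ} (hb : 1 ≤ b) (hx : |x| ≤ X) (hX : X ≤ 1) (ht0 : 0 ≤ t)
    (ht1 : t ≤ 1) : 0 ≤ b + x * t ∧ b + x * t ≤ b + 1 := by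
  have h1 : |x * t| ≤ 1 := by
    rw [abs_mul, abs_of_nonneg ht0]
    have := mul_le_mul (hx.trans hX) ht1 ht0 zero_le_one
    linarith
  obtain ⟨h2, h3⟩ := abs_le.mp h1
  constructor <;> linarith

lemma theta_low {b θ m : ℝ} (hb : 200000 ≤ b) (hm : 38198287 / 10 ^ 8 < m)
    (h : m ≤ (b + 1) * |θ|) : 3819 / 10000 ≤ |θ| * b := by
  have h0 : 0 ≤ |θ| := abs_nonneg _
  have h3 : 200000 * ((b + 1) * |θ|) ≤ 200001 * (|θ| * b) := by nlinarith
  linarith

lemma case1 {B δ d1 d2 e ε : ℝ} (hB : 300000 ≤ B) (h1 : d1 * B ≤ 20) (h2 : d2 * B ^ 2 ≤ 4000)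
    (h3 : e * B ≤ 1 / 20) (hd2 : 0 ≤ d2)
    (hδ : δ ≤ 2271 / 100000 * d1 + 686 / 100 * d2 + 8 / 100 * e)
    (h4 : 5 * ε ≤ δ) (h5 : 30000 ≤ B * ε) : False := by
  have hB0 : (0 : ℝ) < B := by linarith
  have h6 : d2 * B ≤ 1 := by
    have h7 : d2 * B * 300000 ≤ d2 * B * B :=
      mul_le_mul_of_nonneg_left hB (mul_nonneg hd2 hB0.le)
    have h8 : d2 * B ^ 2 = d2 * B * B := by ring
    linarith
  have h9 := mul_le_mul_of_nonneg_right hδ hB0.le
  have h10 := mul_le_mul_of_nonneg_right h4 hB0.le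
  nlinarith

lemma case2 {R d1 d2 e : ℝ} (hR : e * R = 1 / 20) (he : 0 < e) (he1 : e ≤ 18 / 10 ^ 8)
    (h1 : d1 * R ≤ 20) (h2 : d2 * R ^ 2 ≤ 4000) :
    2271 / 100000 * d1 + 686 / 100 * d2 ≤ 20 * e := by
  have h3 : d1 ≤ 400 * e := by
    have h4 := mul_le_mul_of_nonneg_right h1 he.le
    have h5 : d1 * R * e = d1 * (e * R) := by ring
    rw [h5, hR] at h4
    linarith
  have h6 : d2 ≤ 1600000 * e ^ 2 := by
    have h4 := mul_le_mul_of_nonneg_right h2 (sq_nonneg e)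
    have h5 : d2 * R ^ 2 * e ^ 2 = d2 * (e * R) ^ 2 := by ring
    rw [h5, hR] at h4
    linarith
  have h7 : e ^ 2 ≤ 18 / 10 ^ 8 * e := by
    have := mul_le_mul_of_nonneg_right he1 he.le
    rw [sq]; exact this
  linarith

lemma th2 : -(2 / 10 ^ 6) ≤ (34 : ℝ) * βs + 31 * γs - 13 ∧
    (34 : ℝ) * βs + 31 * γs - 13 ≤ 0 := by
  have h := sD_bounds
  unfold βs γs
  constructor
  · linarith [h.1, h.2]
  · linarith [h.1, h.2]

lemma th3 : 0 ≤ (217056 : ℝ) * βs + 204289 * γs - 82916 ∧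
    (217056 : ℝ) * βs + 204289 * γs - 82916 ≤ 5 / 10 ^ 8 := by
  have h := sD_bounds
  unfold βs γs
  constructor
  · linarith [h.1, h.2]
  · linarith [h.1, h.2]

end LocalPart

open LocalPart in
/-- UP6b: the local theorem from the chain -/
theorem local_ : S_LOCAL := by
  rintro ⟨-, -, -, halg⟩ hchain ε hε
  obtain ⟨B, hB⟩ := exists_nat_ge (30000 / ε + 300000)
  refine ⟨B, fun z t β v ρ m hadm hloc => ?_⟩
  by_contra hcon
  push Not at hcon
  obtain ⟨hz0, hzρ, hρ1, ht0, htz, hβ0, hβ1, hv0, hv1, hpt⟩ := hadm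
  have hBpos : (300000 : ℝ) ≤ B := by
    have : 0 < 30000 / ε := by positivity
    linarith
  have hBε : 30000 ≤ B * ε := by
    have h1 : 30000 / ε ≤ B := by linarith
    rwa [div_le_iff₀ hε] at h1
  have hBN : 300000 ≤ B := by exact_mod_cast hBpos
  obtain ⟨hFl, hFu⟩ := F_bounds
  obtain ⟨hbl, hbu⟩ := bs_bounds
  obtain ⟨hvl, hvu⟩ := vs_bounds
  obtain ⟨hel, heu, hρl⟩ := z_of_loc hloc
  have hbox := box0_of_loc hloc
  have hFpos : 0 < F := by linarith
  have hm : 0 < m := by linarith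
  have hmF : F < m := by linarith
  have ht1 : t ≤ 1 := by
    have := mul_nonneg ht0 hz0.le
    linarith
  have hz1 : z ≤ 1 := by linarith
  -- the points with `b = 1`
  have h10 : m ≤ ρ * (1 - z * t) * β := by
    have h := hpt 1 0 0 le_rfl (by omega) (by
      have : |((0 : ℤ) : ℝ) - ((1 : ℕ) : ℝ) * z| = z := by
        push_cast
        rw [zero_sub, one_mul, abs_neg, abs_of_pos hz0]
      rw [this]; exact hzρ)
    push_cast at h
    rw [show ((1 : ℝ) - 0) * β + 0 * v - 0 = β by ring, abs_of_nonneg hβ0] at h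
    calc m ≤ ρ * (1 + (0 - 1 * z) * t) * β := h
      _ = ρ * (1 - z * t) * β := by ring
  have h11 : m ≤ ρ * (1 + (1 - z) * t) * v := by
    have h := hpt 1 1 0 le_rfl (by omega) (by
      push_cast
      rw [one_mul, abs_of_nonneg (by linarith)]
      linarith)
    push_cast at h
    rw [show ((1 : ℝ) - 1) * β + 1 * v - 0 = v by ring, abs_of_nonneg hv0] at h
    calc m ≤ ρ * (1 + (1 - 1 * z) * t) * v := h
      _ = ρ * (1 + (1 - z) * t) * v := by ring
  have hβ : 0 < β := by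
    rcases lt_or_eq_of_le hβ0 with h | h
    · exact h
    · rw [← h] at h10; linarith
  have hv : 0 < v := by
    rcases lt_or_eq_of_le hv0 with h | h
    · exact h
    · rw [← h] at h11; linarith
  have hρ0 : 0 < ρ := by linarith
  have hm2 : m ≤ 1 / 2 := m_le_half hz0 hz1 ht0 ht1 hρ0 hρ1 hβ hβ1 h10
  set d1 : ℝ := v - β - γs with hd1
  set d2 : ℝ := (β + 16 * v) / 17 - (βs + 16 * vs) / 17 with hd2
  have hβd : β - βs = d2 - 16 / 17 * d1 := by
    rw [hd1, hd2]; unfold vs; ring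
  have hvd : v - vs = d2 + d1 / 17 := by
    rw [hd1, hd2]; unfold vs; ring
  obtain ⟨p, hp⟩ : ∃ p : ℝ, p * βs = 1 := ⟨1 / βs, by field_simp⟩
  obtain ⟨q, hq⟩ : ∃ q : ℝ, q * vs = 1 := ⟨1 / vs, by field_simp⟩
  have hobj := objective hz0 hz1 hβ hv hm h10 h11 hp hq
  -- numerical bounds for `p`, `q`
  obtain ⟨⟨hpl, hpu⟩, hql, hqu⟩ := pq_bounds hp hq
  obtain ⟨hp2l, hp2u⟩ := sq_bounds (by norm_num) hpl hpu
  obtain ⟨hq2l, hq2u⟩ := sq_bounds (by norm_num) hql hqu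
  norm_num at hp2l hp2u hq2l hq2u
  set c1 : ℝ := 16 / 289 * (q ^ 2 - p ^ 2) with hc1
  set c2 : ℝ := p ^ 2 / 17 + 16 / 17 * q ^ 2 with hc2
  have hc1l : 227 / 10000 ≤ c1 := by rw [hc1]; linarith
  have hc1u : c1 ≤ 2271 / 100000 := by rw [hc1]; linarith
  have hc2l : 685 / 100 ≤ c2 := by rw [hc2]; linarith
  have hc2u : c2 ≤ 686 / 100 := by rw [hc2]; linarith
  set f : ℝ := p / 17 + 16 * q / 17 with hf
  have hfF : f * F = 1 := by
    have h1 : p * q * (F * (1 / 17 * vs + 16 / 17 * βs)) = p * q * (βs * vs) := by rw [halg]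
    have h2 : p * q * (F * (1 / 17 * vs + 16 / 17 * βs)) =
        F * (p * (q * vs) / 17 + 16 * q * (p * βs) / 17) := by ring
    have h3 : p * q * (βs * vs) = (p * βs) * (q * vs) := by ring
    rw [h2, h3, hp, hq] at h1
    rw [hf]
    linarith
  have hfl : 26 / 10 ≤ f := by rw [hf]; linarith
  set e : ℝ := z - 16 / 17 with he
  obtain ⟨hX0, hX1, hY0, hY1⟩ := hbox
  norm_num at hX0 hX1 hY0 hY1
  set G : ℝ := (q - q ^ 2 * (v - vs)) - (p - p ^ 2 * (β - βs)) with hG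
  have hP1 := prod_bound (a := q ^ 2) (x := v - vs) (A := 7) (X := 1 / 10 ^ 6) (sq_nonneg q)
    (by linarith) (by rw [hvd]; linarith) (by rw [hvd]; linarith)
  have hP2 := prod_bound (a := p ^ 2) (x := β - βs) (A := 7) (X := 1 / 10 ^ 5) (sq_nonneg p)
    (by linarith) (by rw [hβd]; linarith) (by rw [hβd]; linarith)
  have hGl : 0 ≤ G := by
    rw [hG]
    linarith [hP1.1, hP1.2, hP2.1, hP2.2]
  have hGu : G ≤ 8 / 100 := by
    rw [hG]
    linarith [hP1.1, hP1.2, hP2.1, hP2.2]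
  have hl : f - ρ / m + e * G ≤ c1 * d1 + c2 * d2 := by
    rw [hβd, hvd] at hobj
    have h1 : p ^ 2 / 17 * (d2 - 16 / 17 * d1) + 16 / 17 * q ^ 2 * (d2 + d1 / 17) =
        c1 * d1 + c2 * d2 := by rw [hc1, hc2]; ring
    rw [← h1]
    exact hobj
  have hfm : 1 ≤ f * m := fm_ge hfF (by linarith) hmF
  have hu : ρ / m ≤ ρ * f := u_le hm hρ0 hfm
  -- `1 - ρ ≥ 34 |e|`
  have hρe : 34 * |e| ≤ 1 - ρ := by
    rcases lt_trichotomy e 0 with hneg | hzero | hpos
    · rw [abs_of_neg hneg]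
      by_contra hc
      push Not at hc
      have hz : z = 16 / 17 + e := by rw [he]; ring
      have hxe : ((31 : ℤ) : ℝ) - ((34 : ℕ) : ℝ) * z = -(1 + 34 * e) := by
        push_cast; rw [hz]; ring
      have h := hpt 34 31 13 (by norm_num) (by omega) (by
        rw [hxe, abs_neg, abs_of_nonneg (by linarith)]
        linarith)
      rw [hxe] at h
      push_cast at h
      rw [theta_id 34 31 13 β v, ← hd1, ← hd2] at h
      obtain ⟨ha, hb⟩ := th2
      have h3 : 0 ≤ (1 + 34 * e) * t := mul_nonneg (by linarith) ht0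
      have h4 : (1 + 34 * e) * t ≤ 1 * 1 := mul_le_mul (by linarith) ht1 ht0 (by norm_num)
      have h2 := small (Y := 34) (c := 4 / 10 ^ 6) hρ0.le hρ1 (by linarith) (by linarith)
        (by rw [abs_le]; constructor <;> linarith) h
      linarith
    · rw [hzero]; simp; exact hρ1
    · rw [abs_of_pos hpos]
      have hkey : 217056 * e ≤ 1 - ρ := by
        by_contra hc
        push Not at hc
        have hz : z = 16 / 17 + e := by rw [he]; ring
        have hxe : ((204289 : ℤ) : ℝ) - ((217056 : ℕ) : ℝ) * z = 1 - 217056 * e := by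
          push_cast; rw [hz]; ring
        have h := hpt 217056 204289 82916 (by norm_num) (by omega) (by
          rw [hxe, abs_of_nonneg (by linarith)]
          linarith)
        rw [hxe] at h
        push_cast at h
        rw [theta_id 217056 204289 82916 β v, ← hd1, ← hd2] at h
        obtain ⟨ha, hb⟩ := th3
        have h3 : 0 ≤ (1 - 217056 * e) * t := mul_nonneg (by linarith) ht0
        have h4 : (1 - 217056 * e) * t ≤ 1 * 1 :=
          mul_le_mul (by linarith) ht1 ht0 (by norm_num)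
        have h2 := small (Y := 217057) (c := 16 / 10 ^ 7) hρ0.le hρ1 (by linarith) (by linarith)
          (by rw [abs_le]; constructor <;> linarith) h
        linarith
      linarith
  have he0 : 0 ≤ |e| := abs_nonneg e
  have heu' : |e| ≤ 18 / 10 ^ 8 := by rw [abs_le]; constructor <;> linarith
  set δ : ℝ := f - ρ / m with hδ
  have hδ1 : 88 * |e| ≤ δ := by
    have h1 : f * (1 - ρ) ≤ δ := by rw [hδ]; linarith
    have h2 : f * (34 * |e|) ≤ f * (1 - ρ) := mul_le_mul_of_nonneg_left hρe (by linarith)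
    have h3 : 26 / 10 * (34 * |e|) ≤ f * (34 * |e|) :=
      mul_le_mul_of_nonneg_right hfl (by linarith)
    linarith
  have hδ2 : 5 * ε ≤ δ := delta_eps hfF hfl hcon hm hm2 hρ1 hε
  have heG : -(8 / 100) * |e| ≤ e * G := by
    have h1 : |e * G| = |e| * G := by rw [abs_mul, abs_of_nonneg hGl]
    have h2 := neg_abs_le (e * G)
    have h3 := mul_le_mul_of_nonneg_left hGu he0
    linarith
  have hl2 : δ - 8 / 100 * |e| ≤ c1 * d1 + c2 * d2 := by linarith
  have hl0 : 0 < c1 * d1 + c2 * d2 := by linarith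
  have hobjc : -303 * max d2 0 ≤ d1 := obj_cond hc1l hc2u (by linarith) hl0
  have hbox2 : box0 d1 d2 := box0_of_loc hloc
  have hch : ∀ R : ℝ, 0 < R → R ≤ B → |e| * R ≤ 1 / 20 →
      |d1| * R ≤ 20 ∧ |d2| * R ^ 2 ≤ 4000 := by
    intro R hR0 hRB hRe
    refine hchain d1 d2 R hR0 hbox2 hobjc ?_
    rintro ⟨b, a, n⟩ hw1 hw2 hw3
    simp only at hw1 hw2
    obtain ⟨b', rfl⟩ := Int.eq_ofNat_of_zero_le (by omega : 0 ≤ b)
    have hx0 : x0 ((b' : ℤ), a, n) = a - 16 / 17 * (b' : ℝ) := by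
      simp [x0]
    have hθs : θs ((b' : ℤ), a, n) = (b' : ℝ) * βs + a * γs - n := by
      simp [θs]
    rw [hx0] at hw3 ⊢
    rw [hθs]
    simp only [Int.cast_natCast] at hw2 ⊢
    have hb1 : (200000 : ℝ) ≤ b' := by exact_mod_cast hw1
    have hbB : b' ≤ B := by
      have : (b' : ℝ) ≤ B := hw2.trans hRB
      exact_mod_cast this
    have hxz : (a : ℝ) - b' * z = (a - 16 / 17 * (b' : ℝ)) - e * b' := by rw [he]; ring
    have heb : |e * b'| ≤ 1 / 20 := by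
      rw [abs_mul, abs_of_nonneg (by linarith : (0 : ℝ) ≤ b')]
      exact (mul_le_mul_of_nonneg_left hw2 he0).trans hRe
    have hxabs : |(a : ℝ) - b' * z| ≤ 16 / 17 + 1 / 20 := by
      rw [hxz]
      exact (abs_sub _ _).trans (add_le_add hw3 heb)
    have h := hpt b' a n (by omega) hbB (by linarith)
    rw [theta_id (b' : ℝ) a n β v, ← hd1, ← hd2] at h
    obtain ⟨hy0, hy1⟩ := y_bounds (b := (b' : ℝ)) (t := t) (by linarith) hxabs (by norm_num)
      ht0 ht1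
    have h2 := small (Y := b' + 1) (c := |(b' : ℝ) * βs + a * γs - n +
      (a - 16 / 17 * (b' : ℝ)) * d1 + b' * d2|) hρ0.le hρ1 hy0 hy1 le_rfl h
    exact theta_low hb1 (by linarith) h2
  have had1 := le_abs_self d1
  have had2 := le_abs_self d2
  have hd10 := abs_nonneg d1
  have hd20 := abs_nonneg d2
  have hl3 : c1 * d1 + c2 * d2 ≤ 2271 / 100000 * |d1| + 686 / 100 * |d2| := by
    have h1 : c1 * d1 ≤ c1 * |d1| := mul_le_mul_of_nonneg_left had1 (by linarith)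
    have h2 : c2 * d2 ≤ c2 * |d2| := mul_le_mul_of_nonneg_left had2 (by linarith)
    have h3 : c1 * |d1| ≤ 2271 / 100000 * |d1| := mul_le_mul_of_nonneg_right hc1u hd10
    have h4 : c2 * |d2| ≤ 686 / 100 * |d2| := mul_le_mul_of_nonneg_right hc2u hd20
    linarith
  by_cases hcase : |e| * B ≤ 1 / 20
  · obtain ⟨hr1, hr2⟩ := hch B (by linarith) le_rfl hcase
    exact case1 (B := (B : ℝ)) (δ := δ) (d1 := |d1|) (d2 := |d2|) (e := |e|) (ε := ε) hBpos hr1 hr2
      hcase hd20 (by linarith) hδ2 hBε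
  · push Not at hcase
    have hepos : 0 < |e| := by
      rcases lt_or_eq_of_le he0 with h | h
      · exact h
      · rw [← h] at hcase; linarith
    set R : ℝ := 1 / (20 * |e|) with hR
    have hRe : |e| * R = 1 / 20 := by rw [hR]; field_simp
    have hR0 : 0 < R := by rw [hR]; positivity
    have hRB : R ≤ B := by
      rw [hR, div_le_iff₀ (by positivity)]
      linarith
    obtain ⟨hr1, hr2⟩ := hch R hR0 hRB hRe.le
    have h1 := case2 (d1 := |d1|) (d2 := |d2|) hRe hepos heu' hr1 hr2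
    linarith

end Pool.Agent.MDS.Up
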