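import Pool.Agent.MDS.Up.Stmts

set_option autoImplicit false

/-! # UP2: soundness of the certificate checker (S_SOUND) -/

namespace Pool.Agent.MDS.Up

/-- an inequality holds -/
def Holds (β v : ℝ) (l : Ineq) : Prop := (l.d : ℝ) / D ≤ l.p * β + l.q * v

/-- the state holds -/
structure Ok (s : St) (z t β v ρ : ℝ) : Prop where
  z0 : (s.z0 : ℝ) ≤ z * D
  z1 : z * D ≤ s.z1
  r0 : (s.r0 : ℝ) ≤ ρ * D
  r1 : ρ * D ≤ s.r1
  tl : (s.tl : ℝ) ≤ t * D
  th : t * D ≤ s.th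
  H : ∀ l ∈ s.H, Holds β v l

lemma D_pos : (0 : ℝ) < (D : ℝ) := by norm_num [D]

lemma THR_pos : (0 : ℝ) < (THR : ℝ) := by norm_num [THR]

lemma SC_pos : (0 : ℝ) < (SC : ℝ) := by norm_num [SC]

lemma holds_iff {β v : ℝ} {l : Ineq} :
    Holds β v l ↔ (l.d : ℝ) ≤ l.p * (β * D) + l.q * (v * D) := by
  unfold Holds
  rw [div_le_iff₀ D_pos]
  constructor <;> intro h <;> nlinarith [h]

lemma Ok.get {s : St} {z t β v ρ : ℝ} (h : Ok s z t β v ρ) (i : ℕ) : Holds β v (s.get i) := by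
  unfold St.get
  by_cases hi : i < s.H.length
  · rw [List.getD_eq_getElem _ _ hi]
    exact h.H _ (List.getElem_mem hi)
  · rw [List.getD_eq_default _ _ (not_lt.mp hi)]
    rw [holds_iff]
    simp

lemma imp_sound {β v : ℝ} {g h l : Ineq} (hg : Holds β v g) (hh : Holds β v h)
    (hi : imp g h l = true) : Holds β v l := by
  unfold imp at hi
  simp only [Bool.and_eq_true, decide_eq_true_eq] at hi
  obtain ⟨⟨⟨he, hx⟩, hy⟩, hd⟩ := hi
  have he' : (0 : ℝ) < (g.p : ℝ) * h.q - h.p * g.q := by exact_mod_cast he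
  have hx' : (0 : ℝ) ≤ (l.p : ℝ) * h.q - l.q * h.p := by exact_mod_cast hx
  have hy' : (0 : ℝ) ≤ (g.p : ℝ) * l.q - g.q * l.p := by exact_mod_cast hy
  have hd' : (l.d : ℝ) * ((g.p : ℝ) * h.q - h.p * g.q) ≤
      ((l.p : ℝ) * h.q - l.q * h.p) * g.d + ((g.p : ℝ) * l.q - g.q * l.p) * h.d := by
    exact_mod_cast hd
  rw [holds_iff] at hg hh ⊢
  have h1 := mul_le_mul_of_nonneg_left hg hx'
  have h2 := mul_le_mul_of_nonneg_left hh hy'
  have h3 : ((g.p : ℝ) * h.q - h.p * g.q) * (l.p * (β * D) + l.q * (v * D)) =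
      ((l.p : ℝ) * h.q - l.q * h.p) * (g.p * (β * D) + g.q * (v * D)) +
      ((g.p : ℝ) * l.q - g.q * l.p) * (h.p * (β * D) + h.q * (v * D)) := by ring
  refine le_of_mul_le_mul_left ?_ he'
  rw [h3]
  linarith

lemma contra_sound {β v : ℝ} {g h l : Ineq} (hg : Holds β v g) (hh : Holds β v h)
    (hl : Holds β v l) (hi : contra g h l = true) : False := by
  unfold contra at hi
  simp only [Bool.and_eq_true, decide_eq_true_eq] at hi
  obtain ⟨⟨⟨hx, hy⟩, hw⟩, hd⟩ := hi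
  have hx' : (0 : ℝ) ≤ (h.p : ℝ) * l.q - l.p * h.q := by exact_mod_cast hx
  have hy' : (0 : ℝ) ≤ (l.p : ℝ) * g.q - g.p * l.q := by exact_mod_cast hy
  have hw' : (0 : ℝ) ≤ (g.p : ℝ) * h.q - h.p * g.q := by exact_mod_cast hw
  have hd' : (0 : ℝ) < ((h.p : ℝ) * l.q - l.p * h.q) * g.d +
      ((l.p : ℝ) * g.q - g.p * l.q) * h.d + ((g.p : ℝ) * h.q - h.p * g.q) * l.d := by
    exact_mod_cast hd
  rw [holds_iff] at hg hh hl
  have h1 := mul_le_mul_of_nonneg_left hg hx'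
  have h2 := mul_le_mul_of_nonneg_left hh hy'
  have h3 := mul_le_mul_of_nonneg_left hl hw'
  have h4 : ((h.p : ℝ) * l.q - l.p * h.q) * (g.p * (β * D) + g.q * (v * D)) +
      ((l.p : ℝ) * g.q - g.p * l.q) * (h.p * (β * D) + h.q * (v * D)) +
      ((g.p : ℝ) * h.q - h.p * g.q) * (l.p * (β * D) + l.q * (v * D)) = 0 := by ring
  linarith

lemma impAll_sound {s : St} {z t β v ρ : ℝ} (h : Ok s z t β v ρ) :
    ∀ (L : List Ineq) (js : List (ℕ × ℕ)), impAll s L js = true → ∀ l ∈ L, Holds β v l := by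
  intro L
  induction L with
  | nil => intro js _ l hl; simp at hl
  | cons l ls ih =>
    intro js hjs
    cases js with
    | nil => simp [impAll] at hjs
    | cons j js =>
      simp only [impAll, Bool.and_eq_true] at hjs
      intro l' hl'
      rcases List.mem_cons.mp hl' with rfl | hl'
      · exact imp_sound (h.get _) (h.get _) hjs.1
      · exact ih js hjs.2 l' hl'

/-- The data of one admissible point. -/
structure Pt (z t β v ρ m : ℝ) : Prop where
  zpos : 0 < z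
  zρ : z < ρ
  ρ1 : ρ ≤ 1
  t0 : 0 ≤ t
  t1 : t * (1 + z) ≤ 1
  β0 : 0 ≤ β
  β1 : β ≤ 1 / 2
  v0 : 0 ≤ v
  v1 : v ≤ 1
  m0 : (THR : ℝ) ≤ m * D
  adm : ∀ (b : ℕ) (a n : ℤ), 1 ≤ b → b ≤ 1048576 → |(a : ℝ) - b * z| < ρ →
    m ≤ ρ * (b + (a - b * z) * t) * |((b : ℝ) - a) * β + a * v - n|

/-- product bound: from `m ≤ ρ y w` with `y, w` bounded -/
lemma mulpos {ρ y w m : ℝ} (hρ : 0 < ρ) (hw : 0 ≤ w) (hm : 0 < m) (h : m ≤ ρ * y * w) :
    0 < y ∧ 0 < w := by
  have h1 : 0 < ρ * y * w := lt_of_lt_of_le hm h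
  have hw' : 0 < w := by
    rcases hw.lt_or_eq with h2 | h2
    · exact h2
    · rw [← h2] at h1; simp at h1
  refine ⟨?_, hw'⟩
  by_contra hy
  have : ρ * y ≤ 0 := mul_nonpos_of_nonneg_of_nonpos hρ.le (not_lt.mp hy)
  have : ρ * y * w ≤ 0 := mul_nonpos_of_nonpos_of_nonneg this hw
  linarith

lemma Pt.ρpos {z t β v ρ m : ℝ} (p : Pt z t β v ρ m) : 0 < ρ := p.zpos.trans p.zρ

lemma Pt.mpos {z t β v ρ m : ℝ} (p : Pt z t β v ρ m) : 0 < m := by
  have h := lt_of_lt_of_le THR_pos p.m0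
  by_contra hm
  have : m * D ≤ 0 := mul_nonpos_of_nonpos_of_nonneg (not_lt.mp hm) D_pos.le
  linarith

/-- the point `(1, 0)` -/
lemma Pt.p10 {z t β v ρ m : ℝ} (p : Pt z t β v ρ m) : m ≤ ρ * (1 - z * t) * β := by
  have h := p.adm 1 0 0 le_rfl (by norm_num) (by
    simp only [Int.cast_zero, Nat.cast_one, one_mul, zero_sub, abs_neg]
    rw [abs_of_pos p.zpos]; exact p.zρ)
  simp only [Int.cast_zero, Nat.cast_one, one_mul, zero_sub, sub_zero, zero_mul, add_zero] at h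
  rw [abs_of_nonneg p.β0] at h
  calc m ≤ _ := h
    _ = _ := by ring

/-- the point `(1, 1)` -/
lemma Pt.p11 {z t β v ρ m : ℝ} (p : Pt z t β v ρ m) (h1 : 1 - z < ρ) (n : ℤ) :
    m ≤ ρ * (1 + (1 - z) * t) * |v - n| := by
  have h := p.adm 1 1 n le_rfl (by norm_num) (by
    simp only [Int.cast_one, Nat.cast_one, one_mul]
    rw [abs_of_nonneg (by linarith [p.zρ, p.ρ1])]; exact h1)
  simp only [Int.cast_one, Nat.cast_one, one_mul, sub_self, zero_mul, zero_add] at h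
  exact h

/-- cut, real form -/
lemma cut_aux {ρ y w m r1 Y e : ℝ} (hρ : 0 < ρ) (hw : 0 ≤ w) (hm : 0 < m) (hm' : (THR : ℝ) ≤ m * D)
    (h : m ≤ ρ * y * w) (hr : ρ * D ≤ r1) (hY : y * ((D : ℝ) * D) ≤ Y)
    (he : e * r1 * Y ≤ THR * ((D : ℝ) * D * D)) : e ≤ w * D := by
  obtain ⟨hy, hw'⟩ := mulpos hρ hw hm h
  have hD := D_pos
  have hr1 : 0 < r1 := lt_of_lt_of_le (mul_pos hρ hD) hr
  have hY1 : 0 < Y := lt_of_lt_of_le (mul_pos hy (mul_pos hD hD)) hY
  have h1 : (THR : ℝ) * (D * D * D) ≤ r1 * Y * (w * D) := by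
    have h2 : ρ * D * (y * ((D : ℝ) * D)) ≤ r1 * Y :=
      mul_le_mul hr hY (mul_nonneg hy.le (mul_pos hD hD).le) hr1.le
    have h3 : ρ * D * (y * ((D : ℝ) * D)) * (w * D) ≤ r1 * Y * (w * D) :=
      mul_le_mul_of_nonneg_right h2 (mul_nonneg hw hD.le)
    have h4 : m * D * (D * D * D) ≤ ρ * y * w * D * (D * D * D) := by
      have := mul_le_mul_of_nonneg_right h hD.le
      exact mul_le_mul_of_nonneg_right this (mul_pos (mul_pos hD hD) hD).le
    have h5 : (THR : ℝ) * (D * D * D) ≤ m * D * (D * D * D) :=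
      mul_le_mul_of_nonneg_right hm' (mul_pos (mul_pos hD hD) hD).le
    calc (THR : ℝ) * (D * D * D) ≤ ρ * y * w * D * (D * D * D) := h5.trans h4
      _ = ρ * D * (y * ((D : ℝ) * D)) * (w * D) := by ring
      _ ≤ _ := h3
  have h6 : r1 * Y * e ≤ r1 * Y * (w * D) := by
    calc r1 * Y * e = e * r1 * Y := by ring
      _ ≤ _ := he
      _ ≤ _ := h1
  exact le_of_mul_le_mul_left h6 (mul_pos hr1 hY1)

/-- `tb`, real form -/
lemma tb_aux {z t β v ρ m r1 z0 nb t' : ℝ} (p : Pt z t β v ρ m) (hr : ρ * D ≤ r1)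
    (hz0 : 0 < z0) (hz : z0 ≤ z * D) (hnb : 0 < nb) (hβ : β * D ≤ nb)
    (h : (D : ℝ) * D * (r1 * nb - THR * D) ≤ t' * z0 * r1 * nb) : t * D ≤ t' := by
  have hD := D_pos
  have hρ := p.ρpos
  have h10 := p.p10
  obtain ⟨hy, hβ'⟩ := mulpos hρ p.β0 p.mpos h10
  have hr1 : 0 < r1 := lt_of_lt_of_le (mul_pos hρ hD) hr
  -- THR * D ≤ r1 * nb * (1 - z t)
  have h1 : (THR : ℝ) * D ≤ r1 * nb * (1 - z * t) := by
    have h2 : ρ * D * (β * D) ≤ r1 * nb := mul_le_mul hr hβ (mul_nonneg p.β0 hD.le) hr1.le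
    have h3 := mul_le_mul_of_nonneg_right h2 hy.le
    have h4 : (THR : ℝ) * D ≤ m * D * D := mul_le_mul_of_nonneg_right p.m0 hD.le
    have h5 : m * D * D ≤ ρ * (1 - z * t) * β * D * D :=
      mul_le_mul_of_nonneg_right (mul_le_mul_of_nonneg_right h10 hD.le) hD.le
    calc (THR : ℝ) * D ≤ ρ * (1 - z * t) * β * D * D := h4.trans h5
      _ = ρ * D * (β * D) * (1 - z * t) := by ring
      _ ≤ _ := h3
  have h6 : r1 * nb * (z * t * (D * D)) ≤ r1 * nb * (t' * z0) := by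
    have h7 : (D : ℝ) * D * (THR * D) ≤ D * D * (r1 * nb * (1 - z * t)) :=
      mul_le_mul_of_nonneg_left h1 (mul_pos hD hD).le
    nlinarith [h7, h]
  have h8 : z * t * (D * D) ≤ t' * z0 := le_of_mul_le_mul_left h6 (mul_pos hr1 hnb)
  have h9 : z0 * (t * D) ≤ z * D * (t * D) :=
    mul_le_mul_of_nonneg_right hz (mul_nonneg p.t0 hD.le)
  have h10' : z0 * (t * D) ≤ z0 * t' := by nlinarith [h8, h9]
  exact le_of_mul_le_mul_left h10' hz0

/-- `tl`, real form -/
lemma tl_aux {z t β v ρ m r1 z0 nv t' w : ℝ} (p : Pt z t β v ρ m) (hr : ρ * D ≤ r1)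
    (hz0 : z0 < D) (hz : z0 ≤ z * D) (hnv : 0 < nv) (hw0 : 0 ≤ w) (hw : w * D ≤ nv)
    (h11 : m ≤ ρ * (1 + (1 - z) * t) * w)
    (h : t' * (D - z0) * r1 * nv ≤ (D : ℝ) * D * (THR * D - r1 * nv)) : t' ≤ t * D := by
  have hD := D_pos
  have hρ := p.ρpos
  obtain ⟨hy, hw'⟩ := mulpos hρ hw0 p.mpos h11
  have hr1 : 0 < r1 := lt_of_lt_of_le (mul_pos hρ hD) hr
  have h1 : (THR : ℝ) * D ≤ r1 * nv * (1 + (1 - z) * t) := by
    have h2 : ρ * D * (w * D) ≤ r1 * nv := mul_le_mul hr hw (mul_nonneg hw0 hD.le) hr1.le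
    have h3 := mul_le_mul_of_nonneg_right h2 hy.le
    have h4 : (THR : ℝ) * D ≤ m * D * D := mul_le_mul_of_nonneg_right p.m0 hD.le
    have h5 : m * D * D ≤ ρ * (1 + (1 - z) * t) * w * D * D :=
      mul_le_mul_of_nonneg_right (mul_le_mul_of_nonneg_right h11 hD.le) hD.le
    calc (THR : ℝ) * D ≤ ρ * (1 + (1 - z) * t) * w * D * D := h4.trans h5
      _ = ρ * D * (w * D) * (1 + (1 - z) * t) := by ring
      _ ≤ _ := h3
  have h6 : r1 * nv * (t' * (D - z0)) ≤ r1 * nv * ((1 - z) * t * (D * D)) := by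
    have h7 : (D : ℝ) * D * (THR * D) ≤ D * D * (r1 * nv * (1 + (1 - z) * t)) :=
      mul_le_mul_of_nonneg_left h1 (mul_pos hD hD).le
    nlinarith [h7, h]
  have h8 : t' * (D - z0) ≤ (1 - z) * t * (D * D) := le_of_mul_le_mul_left h6 (mul_pos hr1 hnv)
  have h9 : (1 - z) * D * (t * D) ≤ (D - z0) * (t * D) :=
    mul_le_mul_of_nonneg_right (by linarith) (mul_nonneg p.t0 hD.le)
  have h10' : (D - z0) * t' ≤ (D - z0) * (t * D) := by nlinarith [h8, h9]
  exact le_of_mul_le_mul_left h10' (by linarith)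

/-- the objective inequality -/
lemma obj_aux {z t β v ρ m r1 : ℝ} (p : Pt z t β v ρ m) (hr : ρ * D ≤ r1) (h1z : 1 - z < ρ) :
    0 < β ∧ 0 < v ∧ (1 - z) / β + z / v ≤ r1 / THR := by
  have hD := D_pos
  have hT := THR_pos
  have hρ := p.ρpos
  have h10 := p.p10
  have h11 := p.p11 h1z 0
  simp only [Int.cast_zero, sub_zero] at h11
  rw [abs_of_nonneg p.v0] at h11
  obtain ⟨hy, hβ⟩ := mulpos hρ p.β0 p.mpos h10
  obtain ⟨hy', hv⟩ := mulpos hρ p.v0 p.mpos h11
  refine ⟨hβ, hv, ?_⟩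
  have hz1 : 0 ≤ 1 - z := by linarith [p.zρ, p.ρ1]
  have hm := p.mpos
  -- m / β ≤ ρ (1 - z t)
  have h2 : m / β ≤ ρ * (1 - z * t) := by rw [div_le_iff₀ hβ]; exact h10
  have h3 : m / v ≤ ρ * (1 + (1 - z) * t) := by rw [div_le_iff₀ hv]; exact h11
  have h4 : m * ((1 - z) / β + z / v) ≤ ρ := by
    have h5 := mul_le_mul_of_nonneg_left h2 hz1
    have h6 := mul_le_mul_of_nonneg_left h3 p.zpos.le
    have h7 : m * ((1 - z) / β + z / v) = (1 - z) * (m / β) + z * (m / v) := by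
      field_simp
    rw [h7]
    nlinarith [h5, h6]
  have hS : 0 ≤ (1 - z) / β + z / v :=
    add_nonneg (div_nonneg hz1 hβ.le) (div_nonneg p.zpos.le hv.le)
  rw [le_div_iff₀ hT]
  have h8 : ((1 - z) / β + z / v) * THR ≤ ((1 - z) / β + z / v) * (m * D) :=
    mul_le_mul_of_nonneg_left p.m0 hS
  have h9 : m * ((1 - z) / β + z / v) * D ≤ ρ * D := mul_le_mul_of_nonneg_right h4 hD.le
  calc ((1 - z) / β + z / v) * THR ≤ ((1 - z) / β + z / v) * (m * D) := h8
    _ = m * ((1 - z) / β + z / v) * D := by ring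
    _ ≤ ρ * D := h9
    _ ≤ r1 := hr

/-- tangent of `1 / x` -/
lemma tan_aux {x x0 : ℝ} (hx : 0 < x) (hx0 : 0 < x0) : 2 * D / x0 - x * (D * D) / (x0 * x0) ≤ 1 / x := by
  have hD := D_pos
  rw [div_sub_div _ _ hx0.ne' (mul_pos hx0 hx0).ne', div_le_div_iff₀ (by positivity) hx]
  have : (0 : ℝ) ≤ x0 * (x0 - x * D) ^ 2 := mul_nonneg hx0.le (sq_nonneg _)
  nlinarith [this]

lemma ob_fin {β v b0 v0 zz K r1 hp hq hd : ℝ} (hβ : 0 ≤ β) (hv : 0 ≤ v) (hb0 : 0 < b0)
    (hv0 : 0 < v0)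
    (hE : (D - zz) * D * (2 * D / b0 - β * (D * D) / (b0 * b0)) +
      zz * D * (2 * D / v0 - v * (D * D) / (v0 * v0)) ≤ r1 / THR * (D * D) + K)
    (h1 : SC * (D - zz) * D ≤ hp * (b0 * b0)) (h2 : SC * zz * D ≤ hq * (v0 * v0))
    (h3 : hd * b0 * v0 * THR * D ≤ SC * (2 * (D - zz) * v0 * THR * (D * D) +
      2 * zz * b0 * THR * (D * D) - K * b0 * v0 * THR - r1 * b0 * v0 * (D * D))) :
    hd ≤ hp * (β * D) + hq * (v * D) := by
  have hD := D_pos
  have hT := THR_pos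
  have hS := SC_pos
  have e1 : SC * (D - zz) * D / (b0 * b0) ≤ hp := by
    rw [div_le_iff₀ (mul_pos hb0 hb0)]; exact h1
  have e2 : SC * zz * D / (v0 * v0) ≤ hq := by
    rw [div_le_iff₀ (mul_pos hv0 hv0)]; exact h2
  have e3 : SC * (D - zz) * D / (b0 * b0) * (β * D) ≤ hp * (β * D) :=
    mul_le_mul_of_nonneg_right e1 (mul_nonneg hβ hD.le)
  have e4 : SC * zz * D / (v0 * v0) * (v * D) ≤ hq * (v * D) :=
    mul_le_mul_of_nonneg_right e2 (mul_nonneg hv hD.le)
  refine le_trans ?_ (add_le_add e3 e4)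
  -- multiply by b0 v0 THR D
  have hpos : 0 < b0 * v0 * THR * D := by positivity
  refine le_of_mul_le_mul_right ?_ hpos
  have e5 := mul_le_mul_of_nonneg_left hE (show (0 : ℝ) ≤ SC * (b0 * v0 * THR) by positivity)
  have e6 : SC * (b0 * v0 * THR) * ((D - zz) * D * (2 * D / b0 - β * (D * D) / (b0 * b0)) +
      zz * D * (2 * D / v0 - v * (D * D) / (v0 * v0))) =
      SC * (2 * (D - zz) * v0 * THR * (D * D) + 2 * zz * b0 * THR * (D * D)) -
      (SC * (D - zz) * D / (b0 * b0) * (β * D) + SC * zz * D / (v0 * v0) * (v * D)) *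
        (b0 * v0 * THR * D) := by
    field_simp
    ring
  have e7 : SC * (b0 * v0 * THR) * (r1 / THR * (D * D) + K) =
      SC * (K * b0 * v0 * THR + r1 * b0 * v0 * (D * D)) := by
    field_simp
    ring
  rw [e6, e7] at e5
  calc hd * (b0 * v0 * THR * D) = hd * b0 * v0 * THR * D := by ring
    _ ≤ _ := h3
    _ ≤ _ := by linarith

/-- `ob`, `side = false` -/
lemma ob0_aux {z t β v ρ m r1 z0 z1 b0 v0 k lp lq ld hp hq hd : ℝ} (p : Pt z t β v ρ m)
    (hr : ρ * D ≤ r1) (h1z : 1 - z < ρ) (hb0 : 0 < b0) (hv0 : 0 < v0) (hk : 0 ≤ k)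
    (hz0 : z0 ≤ z * D) (hz1 : z * D ≤ z1)
    (hl : ld ≤ lp * (β * D) + lq * (v * D))
    (l1 : lp * (b0 * b0) ≤ SC * D * D) (l2 : lq * (v0 * v0) ≤ -(SC * D * D))
    (l3 : SC * (2 * D * D * v0 - 2 * D * D * b0 - k * b0 * v0) ≤ ld * b0 * v0)
    (h1 : SC * (D - z0) * D ≤ hp * (b0 * b0)) (h2 : SC * z0 * D ≤ hq * (v0 * v0))
    (h3 : hd * b0 * v0 * THR * D ≤ SC * (2 * (D - z0) * v0 * THR * (D * D) +
      2 * z0 * b0 * THR * (D * D) - (z1 - z0) * k * b0 * v0 * THR - r1 * b0 * v0 * (D * D))) :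
    hd ≤ hp * (β * D) + hq * (v * D) := by
  have hD := D_pos
  have hT := THR_pos
  have hS := SC_pos
  obtain ⟨hβ, hv, hobj⟩ := obj_aux p hr h1z
  have hA := tan_aux hβ hb0
  have hB := tan_aux hv hv0
  refine ob_fin (K := (z1 - z0) * k) hβ.le hv.le hb0 hv0 ?_ h1 h2 h3
  -- A - B ≤ k / D
  have e1 : lp ≤ SC * D * D / (b0 * b0) := by
    rw [le_div_iff₀ (mul_pos hb0 hb0)]; exact l1
  have e2 : lq ≤ -(SC * D * D) / (v0 * v0) := by
    rw [le_div_iff₀ (mul_pos hv0 hv0)]; exact l2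
  have e3 : ld ≤ SC * D * D / (b0 * b0) * (β * D) + -(SC * D * D) / (v0 * v0) * (v * D) :=
    hl.trans (add_le_add (mul_le_mul_of_nonneg_right e1 (mul_nonneg hβ.le hD.le))
      (mul_le_mul_of_nonneg_right e2 (mul_nonneg hv.le hD.le)))
  have hAB : (2 * D / b0 - β * (D * D) / (b0 * b0)) - (2 * D / v0 - v * (D * D) / (v0 * v0)) ≤
      k / D := by
    rw [le_div_iff₀ hD]
    have hpos : 0 < SC * (b0 * v0) := by positivity
    refine le_of_mul_le_mul_left ?_ hpos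
    have e4 := mul_le_mul_of_nonneg_right e3 (mul_pos hb0 hv0).le
    have e5 : SC * (b0 * v0) * (((2 * D / b0 - β * (D * D) / (b0 * b0)) -
        (2 * D / v0 - v * (D * D) / (v0 * v0))) * D) =
        SC * (2 * D * D * v0 - 2 * D * D * b0) -
        (SC * D * D / (b0 * b0) * (β * D) + -(SC * D * D) / (v0 * v0) * (v * D)) * (b0 * v0) := by
      field_simp
      ring
    rw [e5]
    linarith
  generalize (2 * (D : ℝ) / b0 - β * (D * D) / (b0 * b0)) = A at *
  generalize (2 * (D : ℝ) / v0 - v * (D * D) / (v0 * v0)) = B at *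
  have hz1' : 0 ≤ 1 - z := by linarith [p.zρ, p.ρ1]
  have f1 : (1 - z) * A + z * B ≤ r1 / THR := by
    have g1 := mul_le_mul_of_nonneg_left hA hz1'
    have g2 := mul_le_mul_of_nonneg_left hB p.zpos.le
    have g3 : (1 - z) * (1 / β) + z * (1 / v) = (1 - z) / β + z / v := by ring
    linarith
  have f2 := mul_le_mul_of_nonneg_right f1 (mul_pos hD hD).le
  have f3 : (z * D - z0) * (D * (A - B)) ≤ (z * D - z0) * k := by
    apply mul_le_mul_of_nonneg_left _ (by linarith)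
    rw [le_div_iff₀ hD] at hAB
    linarith
  have f4 : (z * D - z0) * k ≤ (z1 - z0) * k := mul_le_mul_of_nonneg_right (by linarith) hk
  nlinarith [f2, f3, f4]

/-- `ob`, `side = true` -/
lemma ob1_aux {z t β v ρ m r1 z0 z1 b0 v0 k lp lq ld hp hq hd : ℝ} (p : Pt z t β v ρ m)
    (hr : ρ * D ≤ r1) (h1z : 1 - z < ρ) (hb0 : 0 < b0) (hv0 : 0 < v0) (hk : 0 ≤ k)
    (hz0 : z0 ≤ z * D) (hz1 : z * D ≤ z1)
    (hl : ld ≤ lp * (β * D) + lq * (v * D))
    (l1 : lp * (b0 * b0) ≤ -(SC * D * D)) (l2 : lq * (v0 * v0) ≤ SC * D * D)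
    (l3 : SC * (2 * D * D * b0 - 2 * D * D * v0 - k * b0 * v0) ≤ ld * b0 * v0)
    (h1 : SC * (D - z1) * D ≤ hp * (b0 * b0)) (h2 : SC * z1 * D ≤ hq * (v0 * v0))
    (h3 : hd * b0 * v0 * THR * D ≤ SC * (2 * (D - z1) * v0 * THR * (D * D) +
      2 * z1 * b0 * THR * (D * D) - (z1 - z0) * k * b0 * v0 * THR - r1 * b0 * v0 * (D * D))) :
    hd ≤ hp * (β * D) + hq * (v * D) := by
  have hD := D_pos
  have hT := THR_pos
  have hS := SC_pos
  obtain ⟨hβ, hv, hobj⟩ := obj_aux p hr h1z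
  have hA := tan_aux hβ hb0
  have hB := tan_aux hv hv0
  refine ob_fin (K := (z1 - z0) * k) hβ.le hv.le hb0 hv0 ?_ h1 h2 h3
  have e1 : lp ≤ -(SC * D * D) / (b0 * b0) := by
    rw [le_div_iff₀ (mul_pos hb0 hb0)]; exact l1
  have e2 : lq ≤ SC * D * D / (v0 * v0) := by
    rw [le_div_iff₀ (mul_pos hv0 hv0)]; exact l2
  have e3 : ld ≤ -(SC * D * D) / (b0 * b0) * (β * D) + SC * D * D / (v0 * v0) * (v * D) :=
    hl.trans (add_le_add (mul_le_mul_of_nonneg_right e1 (mul_nonneg hβ.le hD.le))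
      (mul_le_mul_of_nonneg_right e2 (mul_nonneg hv.le hD.le)))
  have hAB : (2 * D / v0 - v * (D * D) / (v0 * v0)) - (2 * D / b0 - β * (D * D) / (b0 * b0)) ≤
      k / D := by
    rw [le_div_iff₀ hD]
    have hpos : 0 < SC * (b0 * v0) := by positivity
    refine le_of_mul_le_mul_left ?_ hpos
    have e4 := mul_le_mul_of_nonneg_right e3 (mul_pos hb0 hv0).le
    have e5 : SC * (b0 * v0) * (((2 * D / v0 - v * (D * D) / (v0 * v0)) -
        (2 * D / b0 - β * (D * D) / (b0 * b0))) * D) =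
        SC * (2 * D * D * b0 - 2 * D * D * v0) -
        (-(SC * D * D) / (b0 * b0) * (β * D) + SC * D * D / (v0 * v0) * (v * D)) * (b0 * v0) := by
      field_simp
      ring
    rw [e5]
    linarith
  generalize (2 * (D : ℝ) / b0 - β * (D * D) / (b0 * b0)) = A at *
  generalize (2 * (D : ℝ) / v0 - v * (D * D) / (v0 * v0)) = B at *
  have hz1' : 0 ≤ 1 - z := by linarith [p.zρ, p.ρ1]
  have f1 : (1 - z) * A + z * B ≤ r1 / THR := by
    have g1 := mul_le_mul_of_nonneg_left hA hz1'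
    have g2 := mul_le_mul_of_nonneg_left hB p.zpos.le
    have g3 : (1 - z) * (1 / β) + z * (1 / v) = (1 - z) / β + z / v := by ring
    linarith
  have f2 := mul_le_mul_of_nonneg_right f1 (mul_pos hD hD).le
  have f3 : (z1 - z * D) * (D * (B - A)) ≤ (z1 - z * D) * k := by
    apply mul_le_mul_of_nonneg_left _ (by linarith)
    rw [le_div_iff₀ hD] at hAB
    linarith
  have f4 : (z1 - z * D) * k ≤ (z1 - z0) * k := mul_le_mul_of_nonneg_right (by linarith) hk
  nlinarith [f2, f3, f4]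

theorem check_sound {z t β v ρ m : ℝ} (p : Pt z t β v ρ m) :
    ∀ (c : Cert) (s : St), Ok s z t β v ρ → check c s = true → Loc z β v ρ := by
  have hD := D_pos
  have hT := THR_pos
  intro c
  induction c with
  | zs zm l r ihl ihr =>
    intro s hs hc
    simp only [check, Bool.and_eq_true] at hc
    rcases le_total (z * D) (zm : ℝ) with h | h
    · refine ihl _ ?_ hc.1
      exact ⟨hs.z0, h, hs.r0, hs.r1, hs.tl, hs.th, hs.H⟩
    · refine ihr _ ?_ hc.2
      exact ⟨h, hs.z1, hs.r0, hs.r1, hs.tl, hs.th, hs.H⟩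
  | rs rm l r ihl ihr =>
    intro s hs hc
    simp only [check, Bool.and_eq_true] at hc
    rcases le_total (ρ * D) (rm : ℝ) with h | h
    · refine ihl _ ?_ hc.1
      exact ⟨hs.z0, hs.z1, hs.r0, h, hs.tl, hs.th, hs.H⟩
    · refine ihr _ ?_ hc.2
      exact ⟨hs.z0, hs.z1, h, hs.r1, hs.tl, hs.th, hs.H⟩
  | cut b a n e l r ihl ihr =>
    intro s hs hc
    simp only [check, Bool.and_eq_true, Bool.or_eq_true, decide_eq_true_eq, beq_iff_eq] at hc
    obtain ⟨⟨⟨⟨⟨⟨hb1, hb2⟩, hx⟩, hr1⟩, he⟩, hl⟩, hr⟩ := hc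
    have hxl : ((a : ℝ) * D - b * s.z1) ≤ (a - b * z) * D := by
      have := mul_le_mul_of_nonneg_left hs.z1 (Nat.cast_nonneg (α := ℝ) b)
      linarith
    have hxh : (a - b * z) * D ≤ ((a : ℝ) * D - b * s.z0) := by
      have := mul_le_mul_of_nonneg_left hs.z0 (Nat.cast_nonneg (α := ℝ) b)
      linarith
    have habs : |((a : ℤ) : ℝ) - b * z| < ρ := by
      rcases hx with ⟨h1, h0⟩ | ⟨h1, h2⟩
      · rw [h1, h0]
        simp only [Nat.cast_zero, Int.cast_zero, Nat.cast_one, one_mul, zero_sub, abs_neg]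
        rw [abs_of_pos p.zpos]; exact p.zρ
      · have h1' : -(s.r0 : ℝ) < (a : ℝ) * D - b * s.z1 := by exact_mod_cast h1
        have h2' : (a : ℝ) * D - b * s.z0 < (s.r0 : ℝ) := by exact_mod_cast h2
        have h0 := hs.r0
        rw [Int.cast_natCast, abs_lt]
        constructor
        · refine lt_of_mul_lt_mul_right (a := (D : ℝ)) ?_ hD.le
          linarith
        · refine lt_of_mul_lt_mul_right (a := (D : ℝ)) ?_ hD.le
          linarith
    have hm := p.adm b a n hb1 hb2 habs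
    -- the bound of y
    have hTD : 0 ≤ t * D := mul_nonneg p.t0 hD.le
    have hY : ((b : ℝ) + (((a : ℤ) : ℝ) - b * z) * t) * ((D : ℝ) * D) ≤
        (((b : ℤ) * (D * D) + (if 0 < (a : ℤ) * D - b * s.z0 then ((a : ℤ) * D - b * s.z0) * s.th
          else ((a : ℤ) * D - b * s.z0) * s.tl) : ℤ) : ℝ) := by
      rw [Int.cast_natCast]
      have e1 : ((b : ℝ) + ((a : ℝ) - b * z) * t) * ((D : ℝ) * D) =
          b * (D * D) + (((a : ℝ) - b * z) * D) * (t * D) := by ring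
      have e2 := mul_le_mul_of_nonneg_right hxh hTD
      rw [e1]
      split_ifs with hpos
      · have hpos' : (0 : ℝ) < (a : ℝ) * D - b * s.z0 := by exact_mod_cast hpos
        have e3 := mul_le_mul_of_nonneg_left hs.th hpos'.le
        push_cast
        linarith
      · have hneg' : (a : ℝ) * D - b * s.z0 ≤ 0 := by exact_mod_cast not_lt.mp hpos
        have e3 := mul_le_mul_of_nonpos_left hs.tl hneg'
        push_cast
        linarith
    have he' : (e : ℝ) * (s.r1 : ℝ) *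
        (((b : ℤ) * (D * D) + (if 0 < (a : ℤ) * D - b * s.z0 then ((a : ℤ) * D - b * s.z0) * s.th
          else ((a : ℤ) * D - b * s.z0) * s.tl) : ℤ) : ℝ) ≤ THR * ((D : ℝ) * D * D) := by
      have := (Int.cast_le (R := ℝ)).mpr he
      rw [Int.cast_mul, Int.cast_mul, Int.cast_natCast] at this
      refine this.trans (le_of_eq ?_)
      push_cast
      ring
    have hw := cut_aux p.ρpos (abs_nonneg _) p.mpos p.m0 hm hs.r1 hY he'
    rw [Int.cast_natCast, Int.cast_natCast] at hw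
    rcases le_total 0 (((b : ℝ) - a) * β + a * v - n) with h0 | h0
    · rw [abs_of_nonneg h0] at hw
      refine ihl _ ?_ hl
      refine ⟨hs.z0, hs.z1, hs.r0, hs.r1, hs.tl, hs.th, ?_⟩
      intro l' hl'
      rcases List.mem_cons.mp hl' with rfl | hl'
      · rw [holds_iff]
        push_cast
        linarith
      · exact hs.H l' hl'
    · rw [abs_of_nonpos h0] at hw
      refine ihr _ ?_ hr
      refine ⟨hs.z0, hs.z1, hs.r0, hs.r1, hs.tl, hs.th, ?_⟩
      intro l' hl'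
      rcases List.mem_cons.mp hl' with rfl | hl'
      · rw [holds_iff]
        push_cast
        linarith
      · exact hs.H l' hl'
  | tb i j nb t' c ih =>
    intro s hs hc
    simp only [check, Bool.and_eq_true, decide_eq_true_eq] at hc
    obtain ⟨⟨⟨⟨⟨h1, h2⟩, h3⟩, h4⟩, h5⟩, h6⟩ := hc
    have hi := imp_sound (hs.get i) (hs.get j) h4
    rw [holds_iff] at hi
    push_cast at hi
    refine ih _ ?_ h6
    refine ⟨hs.z0, hs.z1, hs.r0, hs.r1, hs.tl, ?_, hs.H⟩
    refine tb_aux p hs.r1 (z0 := s.z0) (nb := nb) (by exact_mod_cast h2) hs.z0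
      (by exact_mod_cast h1) (by linarith) ?_
    exact_mod_cast h5
  | tl i j nv t' c ih =>
    intro s hs hc
    simp only [check, Bool.and_eq_true, Bool.or_eq_true, decide_eq_true_eq] at hc
    obtain ⟨⟨⟨⟨⟨⟨h1, h2⟩, h3⟩, h4⟩, h5⟩, h6⟩, h7⟩ := hc
    have h3' : (D : ℝ) - s.z0 < s.r0 := by exact_mod_cast h3
    have h1z : 1 - z < ρ := by
      refine lt_of_mul_lt_mul_right (a := (D : ℝ)) ?_ hD.le
      have := hs.z0
      have := hs.r0
      linarith
    refine ih _ ?_ h7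
    refine ⟨hs.z0, hs.z1, hs.r0, hs.r1, ?_, hs.th, hs.H⟩
    have h1' : (0 : ℝ) < nv := by exact_mod_cast h1
    have h4' : (s.z0 : ℝ) < D := by exact_mod_cast h4
    have h6' : (t' : ℝ) * (D - s.z0) * s.r1 * nv ≤ (D : ℝ) * D * (THR * D - s.r1 * nv) := by
      exact_mod_cast h6
    rcases h5 with h5 | h5
    · have h5' : (D : ℝ) ≤ 2 * nv := by exact_mod_cast h5
      rcases le_total v (1 / 2) with hv | hv
      · have h11 := p.p11 h1z 0
        simp only [Int.cast_zero, sub_zero] at h11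
        rw [abs_of_nonneg p.v0] at h11
        exact tl_aux p hs.r1 h4' hs.z0 h1' p.v0 (by nlinarith) h11 h6'
      · have h11 := p.p11 h1z 1
        simp only [Int.cast_one] at h11
        rw [abs_sub_comm, abs_of_nonneg (by linarith [p.v1])] at h11
        exact tl_aux p hs.r1 h4' hs.z0 h1' (by linarith [p.v1]) (by nlinarith) h11 h6'
    · have hi := imp_sound (hs.get i) (hs.get j) h5
      rw [holds_iff] at hi
      push_cast at hi
      have h11 := p.p11 h1z 0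
      simp only [Int.cast_zero, sub_zero] at h11
      rw [abs_of_nonneg p.v0] at h11
      exact tl_aux p hs.r1 h4' hs.z0 h1' p.v0 (by linarith) h11 h6'
  | ob side b0 v0 k l i j h c ih =>
    intro s hs hc
    cases side with
    | false =>
      simp only [check, Bool.and_eq_true, decide_eq_true_eq, Bool.false_eq_true, if_false] at hc
      obtain ⟨⟨⟨⟨⟨⟨⟨⟨⟨⟨⟨⟨⟨h1, h2⟩, h3⟩, h4⟩, h5⟩, h6⟩, h7⟩, h8⟩, h9⟩, ⟨⟨h10, h11⟩, h12⟩⟩, h13⟩, h14⟩,
        h15⟩, h16⟩ := hc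
      have h4' : (D : ℝ) - s.z0 < s.r0 := by exact_mod_cast h4
      have h1z : 1 - z < ρ := by
        refine lt_of_mul_lt_mul_right (a := (D : ℝ)) ?_ hD.le
        have := hs.z0
        have := hs.r0
        linarith
      have hi := imp_sound (hs.get i) (hs.get j) h9
      rw [holds_iff] at hi
      refine ih _ ?_ h16
      refine ⟨hs.z0, hs.z1, hs.r0, hs.r1, hs.tl, hs.th, ?_⟩
      intro l' hl'
      rcases List.mem_cons.mp hl' with rfl | hl'
      · rw [holds_iff]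
        refine ob0_aux p hs.r1 h1z (b0 := b0) (v0 := v0) (k := k) (by exact_mod_cast h1)
          (by exact_mod_cast h2) (by exact_mod_cast h3) hs.z0 hs.z1 hi ?_ ?_ ?_ ?_ ?_ ?_
        · exact_mod_cast h10
        · exact_mod_cast h11
        · exact_mod_cast h12
        · exact_mod_cast h13
        · exact_mod_cast h14
        · exact_mod_cast h15
      · exact hs.H l' hl'
    | true =>
      simp only [check, Bool.and_eq_true, decide_eq_true_eq, if_true] at hc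
      obtain ⟨⟨⟨⟨⟨⟨⟨⟨⟨⟨⟨⟨⟨h1, h2⟩, h3⟩, h4⟩, h5⟩, h6⟩, h7⟩, h8⟩, h9⟩, ⟨⟨h10, h11⟩, h12⟩⟩, h13⟩, h14⟩,
        h15⟩, h16⟩ := hc
      have h4' : (D : ℝ) - s.z0 < s.r0 := by exact_mod_cast h4
      have h1z : 1 - z < ρ := by
        refine lt_of_mul_lt_mul_right (a := (D : ℝ)) ?_ hD.le
        have := hs.z0
        have := hs.r0
        linarith
      have hi := imp_sound (hs.get i) (hs.get j) h9
      rw [holds_iff] at hi
      refine ih _ ?_ h16
      refine ⟨hs.z0, hs.z1, hs.r0, hs.r1, hs.tl, hs.th, ?_⟩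
      intro l' hl'
      rcases List.mem_cons.mp hl' with rfl | hl'
      · rw [holds_iff]
        refine ob1_aux p hs.r1 h1z (b0 := b0) (v0 := v0) (k := k) (by exact_mod_cast h1)
          (by exact_mod_cast h2) (by exact_mod_cast h3) hs.z0 hs.z1 hi ?_ ?_ ?_ ?_ ?_ ?_
        · exact_mod_cast h10
        · exact_mod_cast h11
        · exact_mod_cast h12
        · exact_mod_cast h13
        · exact_mod_cast h14
        · exact_mod_cast h15
      · exact hs.H l' hl'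
  | tri i j k =>
    intro s hs hc
    simp only [check] at hc
    exact (contra_sound (hs.get i) (hs.get j) (hs.get k) hc).elim
  | bad =>
    intro s hs hc
    simp only [check, decide_eq_true_eq] at hc
    have h1 : (s.th : ℝ) < s.tl := by exact_mod_cast hc
    have h2 := hs.tl
    have h3 := hs.th
    exact (by linarith : False).elim
  | zr =>
    intro s hs hc
    simp only [check, decide_eq_true_eq] at hc
    have h1 : (s.r1 : ℝ) ≤ s.z0 := by exact_mod_cast hc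
    have h2 := hs.z0
    have h3 := hs.r1
    have h4 := mul_lt_mul_of_pos_right p.zρ hD
    exact (by linarith : False).elim
  | loc js =>
    intro s hs hc
    simp only [check, Bool.and_eq_true, decide_eq_true_eq] at hc
    obtain ⟨⟨⟨h1, h2⟩, h3⟩, h4⟩ := hc
    have h1' : (ZL0 : ℝ) ≤ s.z0 := by exact_mod_cast h1
    have h2' : (s.z1 : ℝ) ≤ ZL1 := by exact_mod_cast h2
    have h3' : (RL0 : ℝ) ≤ s.r0 := by exact_mod_cast h3
    refine ⟨?_, ?_, ?_, impAll_sound hs PL js h4⟩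
    · rw [div_le_iff₀ hD]; exact h1'.trans hs.z0
    · rw [le_div_iff₀ hD]; exact hs.z1.trans h2'
    · rw [div_le_iff₀ hD]; exact h3'.trans hs.r0

/-- the root state -/
lemma root_ok {z t β v ρ m : ℝ} (p : Pt z t β v ρ m) : Ok root z t β v ρ := by
  have hD := D_pos
  have h10 := p.p10
  have hρ := p.ρpos
  have ht1 : t ≤ 1 := by nlinarith [mul_nonneg p.t0 p.zpos.le, p.t1]
  refine ⟨?_, ?_, ?_, ?_, ?_, ?_, ?_⟩
  · simp only [root, Int.cast_zero]
    exact mul_nonneg p.zpos.le hD.le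
  · simp only [root]
    nlinarith [p.zρ, p.ρ1]
  · simp only [root]
    push_cast
    have h1 : m ≤ ρ * (1 / 2) := by
      have h2 : ρ * (1 - z * t) * β ≤ ρ * β := by
        have : 0 ≤ ρ * (z * t) * β :=
          mul_nonneg (mul_nonneg hρ.le (mul_nonneg p.zpos.le p.t0)) p.β0
        nlinarith
      have h3 : ρ * β ≤ ρ * (1 / 2) := mul_le_mul_of_nonneg_left p.β1 hρ.le
      linarith
    have h2 := mul_le_mul_of_nonneg_right h1 hD.le
    have h3 := p.m0
    linarith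
  · simp only [root]
    nlinarith [p.ρ1]
  · simp only [root, Int.cast_zero]
    exact mul_nonneg p.t0 hD.le
  · simp only [root]
    nlinarith
  · intro l hl
    simp only [root, List.mem_cons, List.not_mem_nil, or_false] at hl
    rcases hl with rfl | rfl | rfl | rfl
    · rw [holds_iff]
      have := mul_nonneg p.β0 hD.le
      push_cast
      linarith
    · rw [holds_iff]
      have := mul_le_mul_of_nonneg_right p.β1 hD.le
      push_cast
      linarith
    · rw [holds_iff]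
      have := mul_nonneg p.v0 hD.le
      push_cast
      linarith
    · rw [holds_iff]
      have := mul_le_mul_of_nonneg_right p.v1 hD.le
      push_cast
      linarith

/-- UP2 -/
theorem sound : S_SOUND := by
  intro c hc z t β v ρ m hA hm
  obtain ⟨h1, h2, h3, h4, h5, h6, h7, h8, h9, h10⟩ := hA
  have p : Pt z t β v ρ m := ⟨h1, h2, h3, h4, h5, h6, h7, h8, h9,
    by rwa [div_le_iff₀ D_pos] at hm, h10⟩
  exact check_sound p c root (root_ok p) hc

end Pool.Agent.MDS.Up
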