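import Pool.Agent.MDS.Up.Asm
import Pool.Agent.MDS.Up.Sound
import Pool.Agent.MDS.Up.DataOk
import Pool.Agent.MDS.Up.Alg
import Pool.Agent.MDS.Up.Stg
import Pool.Agent.MDS.Up.Chain
import Pool.Agent.MDS.Up.Local

set_option autoImplicit false

/-!
# MP_85fa44_nt: the upper bound `L(ξ, ζ) ≤ F`
-/

namespace Pool.Agent.MDS.Up

open Pool.Agent.Lib_helper94.MDS

theorem glob : S_GLOB := sound _ cert_ok

theorem ub : S_UB := stmtASM stmtRED glob (local_ alg (chain alg stg))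

theorem L_le (ξ ζ : ℝ) : L ξ ζ ≤ F := L_le_F ub ξ ζ

end Pool.Agent.MDS.Up
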