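import Pool.Agent.MDS.Up.Stmts
import Pool.Agent.Lib_helper94.MDSBasic

set_option autoImplicit false

/-!
# MP_85fa44_nt, upper bound: the reduction (module UP1, helper88)

From a pair `(ξ, ζ)` with `ξ` irrational and `M ≥ 2` to the parameters `z, t, β, v, ρ` of the scale
`M`.
-/

namespace Pool.Agent.MDS.Up

open Pool.Agent.Lib_helper94.MDS

lemma nd_eq (x : ℝ) : nd x = distInt x := rfl

/-- Consecutive best approximations of an irrational number. -/
lemma exists_consecutive {ξ : ℝ} (hξ : Irrational ξ) {M : ℕ} (hM : 2 ≤ M) :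
    ∃ (q q' p p' : ℤ) (α α' σ : ℝ), 1 ≤ q ∧ q < M ∧ (M : ℤ) ≤ q' ∧ 0 < α' ∧ α' < α ∧
      q' * α + q * α' = 1 ∧ IsCoprime q q' ∧ (σ = 1 ∨ σ = -1) ∧
      q * ξ - p = σ * α ∧ q' * ξ - p' = -(σ * α') := by
  classical
  -- positivity of `distInt (q ξ)` for `q ≠ 0`
  have hpos : ∀ q : ℤ, q ≠ 0 → 0 < distInt (q * ξ) := by
    intro q hq
    unfold distInt
    rw [abs_pos, sub_ne_zero]
    exact (hξ.intCast_mul hq).ne_int _
  obtain ⟨n, rfl⟩ : ∃ n : ℕ, M = n + 1 := ⟨M - 1, by omega⟩
  have hn1 : 1 ≤ n := by omega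
  -- the minimiser
  obtain ⟨a, ha, hamin⟩ := Finset.exists_min_image (Finset.Icc (1 : ℤ) n)
    (fun q => distInt (q * ξ)) ⟨1, by simp; exact_mod_cast hn1⟩
  rw [Finset.mem_Icc] at ha
  have ha1 : 1 ≤ a := ha.1
  have han : a ≤ n := ha.2
  have hamin' : ∀ q : ℤ, 1 ≤ q → q ≤ n → distInt (a * ξ) ≤ distInt (q * ξ) := by
    intro q h1 h2
    exact hamin q (Finset.mem_Icc.mpr ⟨h1, h2⟩)
  set α := distInt (a * ξ) with hα
  have hα0 : 0 < α := hpos a (by omega)
  -- existence of a better approximation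
  have hex : ∃ k : ℕ, 1 ≤ k ∧ distInt (((k : ℕ) : ℤ) * ξ) < α := by
    obtain ⟨m, hm⟩ := exists_nat_gt (1 / α)
    have hm0 : 0 < m := by
      have : (0 : ℝ) < m := lt_trans (by positivity) hm
      exact_mod_cast this
    obtain ⟨q, hq1, hq2, hq3⟩ := exists_distInt_le ξ hm0
    refine ⟨q.toNat, by omega, ?_⟩
    have hqq : ((q.toNat : ℕ) : ℤ) = q := Int.toNat_of_nonneg (by omega)
    rw [hqq]
    refine hq3.trans_lt ?_
    rw [one_div_lt (by positivity) hα0]
    linarith
  set b := Nat.find hex with hb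
  obtain ⟨hb1, hbα⟩ := Nat.find_spec hex
  rw [← hb] at hb1 hbα
  have hbmin : ∀ k : ℕ, 1 ≤ k → k < b → α ≤ distInt (((k : ℕ) : ℤ) * ξ) := by
    intro k hk1 hk2
    have := Nat.find_min hex hk2
    push Not at this
    exact this hk1
  set β := distInt (((b : ℕ) : ℤ) * ξ) with hβ
  have hβ0 : 0 < β := hpos b (by omega)
  have hnb : n < b := by
    by_contra hcon
    push Not at hcon
    have := hamin' b (by exact_mod_cast hb1) (by exact_mod_cast hcon)
    linarith
  -- Dirichlet gives b α ≤ 1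
  have hbα1 : (b : ℝ) * α ≤ 1 := by
    have hb2 : 0 < b - 1 := by omega
    obtain ⟨q, hq1, hq2, hq3⟩ := exists_distInt_le ξ hb2
    have hqq : ((q.toNat : ℕ) : ℤ) = q := Int.toNat_of_nonneg (by omega)
    have h4 := hbmin q.toNat (by omega) (by omega)
    rw [hqq] at h4
    have h5 : (((b - 1 : ℕ) : ℝ) + 1) = b := by
      have : b - 1 + 1 = b := by omega
      exact_mod_cast this
    rw [h5] at hq3
    have h6 := h4.trans hq3
    rw [le_div_iff₀ (by positivity)] at h6
    linarith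
  have hab : (a : ℝ) < b := by
    have : a < b := by omega
    exact_mod_cast this
  have haR : (1 : ℝ) ≤ a := by exact_mod_cast ha1
  have hbR : (0 : ℝ) < b := by linarith
  -- determinant
  set p := round ((a : ℝ) * ξ) with hp
  set p' := round (((b : ℤ) : ℝ) * ξ) with hp'
  set e1 := (a : ℝ) * ξ - p with he1
  set e2 := ((b : ℤ) : ℝ) * ξ - p' with he2
  have he1α : |e1| = α := rfl
  have he2β : |e2| = β := rfl
  have hdet : (b : ℝ) * e1 - a * e2 = ((a * p' - b * p : ℤ) : ℝ) := by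
    rw [he1, he2]; push_cast; ring
  have haβ : (a : ℝ) * β < b * α := by
    calc (a : ℝ) * β < a * α := by
          apply mul_lt_mul_of_pos_left hbα; linarith
      _ ≤ b * α := by
          apply mul_le_mul_of_nonneg_right hab.le hα0.le
  have haβ0 : 0 < (a : ℝ) * β := by positivity
  have h1 : |(b : ℝ) * e1| = b * α := by rw [abs_mul, he1α, abs_of_pos hbR]
  have h2 : |(a : ℝ) * e2| = a * β := by rw [abs_mul, he2β, abs_of_pos (by linarith)]
  have hD_lt : |((a * p' - b * p : ℤ) : ℝ)| < 2 := by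
    rw [← hdet]
    have := abs_sub (b * e1) (a * e2)
    linarith
  have hD_pos : 0 < |((a * p' - b * p : ℤ) : ℝ)| := by
    rw [← hdet]
    have := abs_sub_abs_le_abs_sub (b * e1) (a * e2)
    linarith
  have hD1 : |((a * p' - b * p : ℤ) : ℝ)| = 1 := by
    have h3 : |(a * p' - b * p : ℤ)| < 2 := by exact_mod_cast hD_lt
    have h4 : 0 < |(a * p' - b * p : ℤ)| := by exact_mod_cast hD_pos
    have h5 : |(a * p' - b * p : ℤ)| = 1 := by omega
    exact_mod_cast h5
  have hcop : IsCoprime a (b : ℤ) := by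
    have h5 : |(a * p' - b * p : ℤ)| = 1 := by exact_mod_cast hD1
    rcases (abs_eq (by norm_num)).mp h5 with h | h
    · exact ⟨p', -p, by linarith⟩
    · exact ⟨-p', p, by linarith⟩
  -- opposite signs
  have hD1' : |(b : ℝ) * e1 - a * e2| = 1 := by rw [hdet]; exact hD1
  have hM' : (((n + 1 : ℕ)) : ℤ) ≤ (b : ℤ) := by exact_mod_cast hnb
  have hbcast : (((b : ℕ) : ℤ) : ℝ) = (b : ℝ) := by push_cast; rfl
  rcases (abs_eq hα0.le).mp he1α with h | h <;> rcases (abs_eq hβ0.le).mp he2β with h' | h' <;>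
      rw [h, h'] at hD1'
  · exfalso
    rw [abs_of_pos (by linarith)] at hD1'; linarith
  · rw [abs_of_pos (by linarith)] at hD1'
    refine ⟨a, b, p, p', α, β, 1, ha1, by push_cast; omega, hM', hβ0, hbα, ?_, hcop, Or.inl rfl,
      ?_, ?_⟩
    · rw [hbcast]; linarith
    · rw [one_mul, ← h]
    · rw [one_mul, ← h']
  · rw [abs_of_neg (by linarith)] at hD1'
    refine ⟨a, b, p, p', α, β, -1, ha1, by push_cast; omega, hM', hβ0, hbα, ?_, hcop, Or.inr rfl,
      ?_, ?_⟩
    · rw [hbcast]; linarith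
    · rw [neg_one_mul, ← h]
    · rw [neg_one_mul, neg_neg, ← h']
  · exfalso
    rw [abs_of_neg (by linarith)] at hD1'; linarith

/-- UP1 (reduction) -/
theorem stmtRED : S_RED := by
  intro ξ ζ hξ M hM m H
  obtain ⟨q, q', p, p', α, α', σ, hq1, hqM, hMq', hα', hαα', hsum, hcop, hσ, he, he'⟩ :=
    exists_consecutive hξ hM
  have hMR : (2 : ℝ) ≤ M := by exact_mod_cast hM
  have hq1R : (1 : ℝ) ≤ q := by exact_mod_cast hq1
  have hqMR : (q : ℝ) < M := by exact_mod_cast hqM
  have hMq'R : (M : ℝ) ≤ q' := by exact_mod_cast hMq'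
  have hq'0 : (0 : ℝ) < q' := by linarith
  have hα : 0 < α := hα'.trans hαα'
  -- the hypothesis for all nonzero integers
  have H' : ∀ N : ℤ, N ≠ 0 → |(N : ℝ)| < M →
      m ≤ M * (distInt (N * ξ) * distInt (N * ζ)) := by
    intro N hN hNM
    rcases lt_or_gt_of_ne hN with h | h
    · rw [abs_of_neg (by exact_mod_cast h)] at hNM
      have h1 : ((N.natAbs : ℕ) : ℝ) = -(N : ℝ) := by
        rw [Nat.cast_natAbs, abs_of_neg h]; push_cast; rfl
      have h2 : N.natAbs < M := by
        have : ((N.natAbs : ℕ) : ℝ) < M := by rw [h1]; exact hNM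
        exact_mod_cast this
      have h3 := H N.natAbs (by omega) h2
      rw [h1, nd_eq, nd_eq, neg_mul, neg_mul, distInt_neg, distInt_neg] at h3
      exact h3
    · rw [abs_of_pos (by exact_mod_cast h)] at hNM
      have h1 : ((N.natAbs : ℕ) : ℝ) = (N : ℝ) := by
        rw [Nat.cast_natAbs, abs_of_pos h]
      have h2 : N.natAbs < M := by
        have : ((N.natAbs : ℕ) : ℝ) < M := by rw [h1]; exact hNM
        exact_mod_cast this
      have h3 := H N.natAbs (by omega) h2
      rw [h1, nd_eq, nd_eq] at h3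
      exact h3
  -- the parameters
  obtain ⟨s, m1, hs, hβ0, hβ1⟩ : ∃ (s : ℝ) (m1 : ℤ), (s = 1 ∨ s = -1) ∧
      0 ≤ s * (-(q * ζ)) - m1 ∧ s * (-(q * ζ)) - m1 ≤ 1 / 2 := by
    have h1 := abs_sub_round (-(q * ζ) : ℝ)
    rcases le_total 0 (-(q * ζ) - (round (-(q * ζ) : ℝ) : ℝ)) with h | h
    · rw [abs_of_nonneg h] at h1
      exact ⟨1, round (-(q * ζ) : ℝ), Or.inl rfl, by linarith, by linarith⟩
    · rw [abs_of_nonpos h] at h1
      refine ⟨-1, -round (-(q * ζ) : ℝ), Or.inr rfl, ?_, ?_⟩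
      · push_cast; linarith
      · push_cast; linarith
  have hss : s * s = 1 := by rcases hs with h | h <;> rw [h] <;> norm_num
  have hsabs : |s| = 1 := by rcases hs with h | h <;> rw [h] <;> norm_num
  set m2 : ℤ := ⌊s * ((q' - q) * ζ)⌋ with hm2
  have hv0 : 0 ≤ s * ((q' - q) * ζ) - m2 := by
    have := Int.floor_le (s * ((q' - q) * ζ)); rw [← hm2] at this; linarith
  have hv1 : s * ((q' - q) * ζ) - m2 ≤ 1 := by
    have := Int.lt_floor_add_one (s * ((q' - q) * ζ)); rw [← hm2] at this; linarith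
  have hz : (q : ℝ) / q' * q' = q := div_mul_cancel₀ _ hq'0.ne'
  have hρ : (M : ℝ) / q' * q' = M := div_mul_cancel₀ _ hq'0.ne'
  have hzt : (q : ℝ) / q' * (q' * α') = q * α' := by rw [← mul_assoc, hz]
  refine ⟨q / q', q' * α', s * (-(q * ζ)) - m1, s * ((q' - q) * ζ) - m2, M / q', ?_, ?_, ?_, ?_, ?_,
    hβ0, hβ1, hv0, hv1, ?_⟩
  · positivity
  · exact div_lt_div_of_pos_right hqMR hq'0
  · rw [div_le_one hq'0]; exact hMq'R
  · positivity
  · have h1 : (q' * α') * (1 + (q : ℝ) / q') = q' * α' + q * α' := by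
      rw [mul_add, mul_one, mul_comm (q' * α') ((q : ℝ) / q'), hzt]
    rw [h1]
    have h2 : (q' : ℝ) * α' < q' * α := mul_lt_mul_of_pos_left hαα' hq'0
    linarith
  · intro b a n hb1 hbM hx
    have hb1R : (1 : ℝ) ≤ b := by exact_mod_cast hb1
    set N : ℤ := a * q' - b * q with hN
    have hNR : (N : ℝ) = (a - b * ((q : ℝ) / q')) * q' := by
      rw [sub_mul, mul_assoc, hz, hN]; push_cast; ring
    have hNabs : |(N : ℝ)| < M := by
      rw [hNR, abs_mul, abs_of_pos hq'0]
      have := mul_lt_mul_of_pos_right hx hq'0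
      rwa [hρ] at this
    have hN0 : N ≠ 0 := by
      intro h0
      have h1 : (b : ℤ) * q = a * q' := by rw [hN] at h0; linarith
      have h2 : q' ∣ (b : ℤ) * q := ⟨a, by rw [h1]; ring⟩
      have h3 := hcop.symm.dvd_of_dvd_mul_right h2
      have h4 := Int.le_of_dvd (by omega) h3
      omega
    have h3 := H' N hN0 hNabs
    set y : ℝ := b + (a - b * ((q : ℝ) / q')) * (q' * α') with hy
    have hyq : b * α + a * α' = y / q' := by
      rw [eq_div_iff hq'0.ne', hy]
      have e1 : (a - b * ((q : ℝ) / q')) * (q' * α') = a * (q' * α') - b * (q * α') := by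
        rw [sub_mul, mul_assoc (b : ℝ), hzt]
      rw [e1]
      linear_combination (b : ℝ) * hsum
    have hy0 : 0 ≤ y := by
      have h1 : (q : ℝ) * α' < 1 := by
        have : 0 < (q' : ℝ) * α := by positivity
        linarith
      have hzρ : |(a : ℝ) - b * ((q : ℝ) / q')| ≤ 1 := by
        refine hx.le.trans ?_
        rw [div_le_one hq'0]; exact hMq'R
      have ht0 : 0 ≤ (q' : ℝ) * α' := by positivity
      have ht1 : (q' : ℝ) * α' ≤ 1 := by
        have h2 : (q' : ℝ) * α' < q' * α := mul_lt_mul_of_pos_left hαα' hq'0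
        have : 0 < (q : ℝ) * α' := by positivity
        linarith
      have h2 : -1 ≤ (a - b * ((q : ℝ) / q')) * (q' * α') := by
        have h5 := neg_le_of_abs_le hzρ
        nlinarith
      rw [hy]; linarith
    have h4 : distInt (N * ξ) ≤ y / q' := by
      have h5 := distInt_le (N * ξ) (a * p' - b * p)
      have e1 : (N : ℝ) * ξ - ((a * p' - b * p : ℤ) : ℝ) = -(σ * (b * α + a * α')) := by
        rw [hN]; push_cast
        linear_combination (a : ℝ) * he' - (b : ℝ) * he
      have hσabs : |σ| = 1 := by rcases hσ with h | h <;> rw [h] <;> norm_num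
      rw [e1, abs_neg, abs_mul, hσabs, one_mul, hyq,
        abs_of_nonneg (div_nonneg hy0 hq'0.le)] at h5
      exact h5
    have h5 : distInt (N * ζ) ≤
        |((b : ℝ) - a) * (s * (-(q * ζ)) - m1) + a * (s * ((q' - q) * ζ) - m2) - n| := by
      have e1 : ((b : ℝ) - a) * (s * (-(q * ζ)) - m1) + a * (s * ((q' - q) * ζ) - m2) - n =
          s * (N * ζ) - ((((b : ℤ) - a) * m1 + a * m2 + n : ℤ) : ℝ) := by
        rw [hN]; push_cast; ring
      rw [e1]
      rcases hs with h | h
      · rw [h, one_mul]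
        exact distInt_le _ _
      · rw [h, neg_one_mul]
        have := distInt_le (-(N * ζ)) (((b : ℤ) - a) * m1 + a * m2 + n)
        rwa [distInt_neg] at this
    calc m ≤ M * (distInt (N * ξ) * distInt (N * ζ)) := h3
      _ ≤ M * ((y / q') *
          |((b : ℝ) - a) * (s * (-(q * ζ)) - m1) + a * (s * ((q' - q) * ζ) - m2) - n|) := by
          apply mul_le_mul_of_nonneg_left _ (by positivity)
          exact mul_le_mul h4 h5 (distInt_nonneg _) (div_nonneg hy0 hq'0.le)
      _ = _ := by ring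

end Pool.Agent.MDS.Up
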