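import Pool.Agent.MDS.Up.Check

set_option autoImplicit false

/-! # The module statements of the upper bound -/

namespace Pool.Agent.MDS.Up

/-- UP1 (reduction) -/
def S_RED : Prop := ∀ (ξ ζ : ℝ), Irrational ξ → ∀ M : ℕ, 2 ≤ M → ∀ m : ℝ,
  (∀ q : ℕ, 1 ≤ q → q < M → m ≤ M * (nd (q * ξ) * nd (q * ζ))) →
  ∃ z t β v ρ : ℝ, Adm (M - 1) z t β v ρ m

/-- the global statement -/
def S_GLOB : Prop := ∀ z t β v ρ m : ℝ, Adm 1048576 z t β v ρ m → (THR : ℝ) / D ≤ m →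
  Loc z β v ρ

/-- UP2 (soundness of the checker) -/
def S_SOUND : Prop := ∀ c : Cert, check c root = true → S_GLOB

/-- the local statement -/
def S_LOC : Prop := ∀ ε : ℝ, 0 < ε → ∃ B : ℕ, ∀ z t β v ρ m : ℝ, Adm B z t β v ρ m →
  Loc z β v ρ → m ≤ F + ε

/-- the upper bound -/
def S_UB : Prop := ∀ ξ ζ ε : ℝ, 0 < ε → ∃ M₀ : ℕ, ∀ M : ℕ, M₀ ≤ M →
  ∃ q : ℕ, 1 ≤ q ∧ q < M ∧ M * (nd (q * ξ) * nd (q * ζ)) ≤ F + ε

/-- UP7 (assembly) -/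
def S_ASM : Prop := S_RED → S_GLOB → S_LOC → S_UB

end Pool.Agent.MDS.Up
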