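import Pool.Agent.MDS.Up.Stmts

set_option autoImplicit false

/-! # The local part: statements (see PAPER.md, sections 3-5) -/

namespace Pool.Agent.MDS.Up

noncomputable def sD : ℝ := √654739973030
noncomputable def lam : ℝ := 19419841 + 24 * sD
noncomputable def βs : ℝ := 1461589 / 3296404 - 537649 / 8668784347080 * sD
noncomputable def γs : ℝ := -1766685 / 26371232 + 2360867 / 34675137388320 * sD
noncomputable def vs : ℝ := βs + γs

/-- `x`-coordinate at `z = 16/17` of the vector `(b, a, n)` -/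
noncomputable def x0 (w : ℤ × ℤ × ℤ) : ℝ := w.2.1 - 16 / 17 * w.1

/-- `θ*` -/
noncomputable def θs (w : ℤ × ℤ × ℤ) : ℝ := w.1 * βs + w.2.1 * γs - w.2.2

/-- the renormalisation matrix -/
def stepA (w : ℤ × ℤ × ℤ) : ℤ × ℤ × ℤ :=
  (-5753140815 * w.1 + 1423030594 * w.2.1 + 11656084544 * w.2.2,
   -5414720768 * w.1 + 1339322913 * w.2.1 + 10970432512 * w.2.2,
   -2197716222 * w.1 + 543601751 * w.2.1 + 4452657585 * w.2.2)

/-- UP4 (algebra) -/
def S_ALG : Prop :=
  (∀ (n : ℕ) (w : ℤ × ℤ × ℤ), x0 (stepA^[n] w) = x0 w ∧ θs (stepA^[n] w) * lam ^ n = θs w ∧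
    |(((stepA^[n] w).1 : ℤ) : ℝ) / lam ^ n - w.1| ≤ 331 / 10 * |x0 w| + 301 * |θs w|) ∧
  388396819 / 10 < lam ∧ lam < 38839682 ∧
  F * (1 / 17 * vs + 16 / 17 * βs) = βs * vs

/-- a box -/
def Bx (x₀ x₁ y₀ y₁ X Y : ℝ) : Prop := x₀ ≤ X ∧ X ≤ x₁ ∧ y₀ ≤ Y ∧ Y ≤ y₁

/-- scale `2^18` -/
def box0 : ℝ → ℝ → Prop :=
  Bx (-1 / 100 / 262144) (3 / 10 / 262144) (-1 / 10 / 262144 ^ 2) (1 / 20 / 262144 ^ 2)

/-- scale `2^24` -/
def box1 : ℝ → ℝ → Prop :=
  Bx (-1 / 200 / 16777216) (3 / 25 / 16777216) (-27 / 100 / 16777216 ^ 2) (3 / 25 / 16777216 ^ 2)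

/-- scale `2^30` -/
def box2 : ℝ → ℝ → Prop :=
  Bx (-1 / 200 / 1073741824) (13 / 100 / 1073741824) (-3 / 25 / 1073741824 ^ 2) (1 / 5 / 1073741824 ^ 2)

/-- scale `2^36` -/
def box3 : ℝ → ℝ → Prop :=
  Bx (-1 / 500 / 68719476736) (96 / 1000 / 68719476736) (-172 / 1000 / 68719476736 ^ 2) (67 / 1000 / 68719476736 ^ 2)

/-- scale `2^18*38839682` -/
def box4 : ℝ → ℝ → Prop :=
  Bx (-1 / 200 / 10181589598208) (28 / 100 / 10181589598208) (-9 / 100 / 10181589598208 ^ 2) (1 / 25 / 10181589598208 ^ 2)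

def V0 : List (ℤ × ℤ × ℤ) :=
  [(351267, 330604, 134185),
   (568357, 534924, 217114),
   (785413, 739213, 300030),
   (919624, 865528, 351299),
   (1705037, 1604741, 651329),
   (4329698, 4075010, 1653957),
   (6954359, 6545279, 2656585),
   (11284057, 10620289, 4310542)]

def V1 : List (ℤ × ℤ × ℤ) :=
  [(18238416, 17165568, 6967127),
   (29522473, 27785857, 11277669),
   (47760889, 44951425, 18244796),
   (77283362, 72737282, 29522465),
   (84020665, 79078272, 32096134),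
   (161304027, 151815554, 61618599),
   (202327613, 190425989, 77289726),
   (363631640, 342241543, 138908325),
   (529699477, 498540685, 202346713),
   (929590893, 874909075, 355106376)]

def V2 : List (ℤ × ℤ × ℤ) :=
  [(1459290370, 1373449760, 557453089),
   (2388881263, 2248358835, 912559465),
   (3811911857, 3587681748, 1456161216),
   (6200793120, 5836040583, 2368720681),
   (9976445201, 9389595484, 3811030559),
   (16213498097, 15259762914, 6193602578),
   (26153683522, 24615231551, 9990781799),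
   (42403441395, 39909121312, 16198235715),
   (68520865141, 64490226016, 26175166176)]

def V3 : List (ℤ × ℤ × ℤ) :=
  [(110924306536, 104399347328, 42373401891),
   (179445171677, 168889573344, 68548568067),
   (290405737989, 273323047519, 110935821296),
   (469850909666, 442212620863, 179484389363),
   (760292907431, 715569795229, 290434061997),
   (1230143817097, 1157782416092, 469918451360),
   (1990472984304, 1873386338168, 760366364695),
   (3220616801401, 3031168754260, 1230284816055),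
   (5211089785705, 4904555092428, 1990651180750),
   (8431706587106, 7935723846688, 3220935996805)]

/-- one stage of the descent -/
def Stage (V : List (ℤ × ℤ × ℤ)) (P Q : ℝ → ℝ → Prop) : Prop :=
  ∀ (X Y : ℝ) (c : ℤ × ℤ × ℤ → ℝ), (∀ w ∈ V, |c w - w.1| ≤ 32) →
    (∀ w ∈ V, 3819 / 10000 ≤ |θs w + x0 w * X + c w * Y| * c w) →
    -303 * max Y 0 ≤ X → P X Y → Q X Y

/-- UP5 (the four stages of one period) -/
def S_STG : Prop := Stage V0 box0 box1 ∧ Stage V1 box1 box2 ∧ Stage V2 box2 box3 ∧ Stage V3 box3 box4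

/-- conclusion of the chain -/
def S_CHAIN0 : Prop := ∀ (X Y R : ℝ), 0 < R → box0 X Y → -303 * max Y 0 ≤ X →
  (∀ w : ℤ × ℤ × ℤ, 200000 ≤ w.1 → (w.1 : ℝ) ≤ R → |x0 w| ≤ 16 / 17 →
    3819 / 10000 ≤ |θs w + x0 w * X + w.1 * Y| * w.1) →
  |X| * R ≤ 20 ∧ |Y| * R ^ 2 ≤ 4000

/-- UP6a (the induction over the stages) -/
def S_CHAIN : Prop := S_ALG → S_STG → S_CHAIN0

/-- UP6b (the local theorem from the chain) -/
def S_LOCAL : Prop := S_ALG → S_CHAIN0 → S_LOC

end Pool.Agent.MDS.Up
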